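import Pool.Agent.Helper97.Lander.Defs

/-!
# Lemma V: divisibility of `sigma(X) Y` by powers of `pi`
-/

set_option autoImplicit false

namespace Pool.Agent.Helper97.Lander

/-- the geometric sum of two congruent elements is divisible. -/
private theorem alg_sum {C : Type*} [CommRing C] {π a b : C} {p : ℕ} (hpπ : π ∣ (p : C))
    (h : π ∣ a - b) : π ∣ ∑ i ∈ Finset.range p, a ^ i * b ^ (p - 1 - i) := by
  have h1 : ∀ i ∈ Finset.range p, π ∣ a ^ i * b ^ (p - 1 - i) - b ^ (p - 1) := by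
    intro i hi
    rw [Finset.mem_range] at hi
    have h2 : b ^ (p - 1) = b ^ i * b ^ (p - 1 - i) := by
      rw [← pow_add]
      congr 1
      omega
    rw [h2, ← sub_mul]
    exact Dvd.dvd.mul_right (h.trans (sub_dvd_pow_sub_pow a b i)) _
  have h3 : π ∣ ∑ i ∈ Finset.range p, (a ^ i * b ^ (p - 1 - i) - b ^ (p - 1)) :=
    Finset.dvd_sum h1
  rw [Finset.sum_sub_distrib, Finset.sum_const, Finset.card_range, nsmul_eq_mul] at h3
  exact (dvd_sub_left (Dvd.dvd.mul_right hpπ _)).1 h3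

private theorem alg_pow {C : Type*} [CommRing C] {π a b : C} {p : ℕ} (hpπ : π ∣ (p : C))
    (h : π ∣ a - b) (t : ℕ) : π ^ (t + 1) ∣ a ^ p ^ t - b ^ p ^ t := by
  induction t with
  | zero => simpa using h
  | succ t ih =>
    have h1 : π ∣ a ^ p ^ t - b ^ p ^ t := h.trans (sub_dvd_pow_sub_pow a b _)
    have h2 := alg_sum hpπ h1
    rw [pow_succ p t, pow_mul, pow_mul, ← geom_sum₂_mul, pow_succ' π (t + 1)]
    exact mul_dvd_mul h2 ih

private theorem alg_iter {C : Type*} [CommRing C] {d Z Y : C} {q : ℕ} (hq : 2 ≤ q)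
    (h : d ∣ (Z ^ q - Z) * Y) (j : ℕ) : d ∣ (Z ^ (1 + j * (q - 1)) - Z) * Y := by
  induction j with
  | zero => simp
  | succ j ih =>
    obtain ⟨r, rfl⟩ : ∃ r, q = r + 2 := ⟨q - 2, by omega⟩
    have h1 : (Z ^ (1 + (j + 1) * (r + 2 - 1)) - Z) * Y
        = Z ^ (r + 1) * ((Z ^ (1 + j * (r + 2 - 1)) - Z) * Y) + (Z ^ (r + 2) - Z) * Y := by
      have h2 : r + 2 - 1 = r + 1 := by omega
      rw [h2]
      ring
    rw [h1]
    exact dvd_add (Dvd.dvd.mul_left ih _) h

/-- Let `pi` be a nonzerodivisor dividing the prime `p`, suppose `x ^ q = x` modulo `pi` for all `x`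
and let `sigma` be a ring endomorphism that is the identity modulo `pi`. Then
`pi ^ N ∣ X * Y` implies `pi ^ N ∣ sigma X * Y`. -/
theorem dvd_sigma {C : Type*} [CommRing C] (π : C) (hπ : ∀ a : C, π * a = 0 → a = 0)
    {p : ℕ} (hp : p.Prime) (hpπ : π ∣ (p : C)) {q : ℕ} (hq : 2 ≤ q)
    (hfrob : ∀ x : C, π ∣ x ^ q - x) (σ : C →+* C) (hσ : ∀ x, π ∣ σ x - x) :
    ∀ (N : ℕ) (X Y : C), π ^ N ∣ X * Y → π ^ N ∣ σ X * Y := by
  intro N
  induction N with
  | zero =>
    intro X Y _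
    rw [pow_zero]
    exact one_dvd _
  | succ N ih =>
    intro X Y hXY
    obtain ⟨X1, hX1⟩ := hfrob X
    have h1 : π ^ N ∣ X1 * Y := by
      have h2 : π ^ (N + 1) ∣ π * (X1 * Y) := by
        have h3 : π * (X1 * Y) = (X ^ (q - 1) - 1) * (X * Y) := by
          have h4 : X ^ q = X ^ (q - 1) * X := by
            rw [← pow_succ]
            congr 1
            omega
          rw [← mul_assoc, ← hX1, h4]
          ring
        rw [h3]
        exact Dvd.dvd.mul_left hXY _
      obtain ⟨c, hc⟩ := h2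
      refine ⟨c, ?_⟩
      have h5 : π * (X1 * Y - π ^ N * c) = 0 := by
        rw [mul_sub, hc, pow_succ]
        ring
      exact sub_eq_zero.1 (hπ _ h5)
    have h2 := ih X1 Y h1
    have h3 : π ∣ σ π := by
      have h4 := hσ π
      exact (dvd_sub_left (dvd_refl π)).1 h4
    have h5 : π ^ (N + 1) ∣ ((σ X) ^ q - σ X) * Y := by
      have h6 : ((σ X) ^ q - σ X) * Y = σ π * (σ X1 * Y) := by
        rw [← map_pow, ← map_sub, hX1, map_mul]
        ring
      rw [h6, pow_succ']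
      exact mul_dvd_mul h3 h2
    have h7 := alg_iter hq h5 (p ^ N)
    have h8 := alg_pow hpπ (hσ X) N
    have h9 : p ^ N ≤ 1 + p ^ N * (q - 1) := by
      have h10 : p ^ N * 1 ≤ p ^ N * (q - 1) := Nat.mul_le_mul_left _ (by omega)
      omega
    have h11 : π ^ (N + 1) ∣ (σ X) ^ (1 + p ^ N * (q - 1)) * Y := by
      have h12 : (σ X) ^ (1 + p ^ N * (q - 1)) * Y
          = (σ X) ^ (1 + p ^ N * (q - 1) - p ^ N) * (((σ X) ^ p ^ N - X ^ p ^ N) * Y
            + X ^ (p ^ N - 1) * (X * Y)) := by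
        have h13 : (σ X) ^ (1 + p ^ N * (q - 1))
            = (σ X) ^ (1 + p ^ N * (q - 1) - p ^ N) * (σ X) ^ p ^ N := by
          rw [← pow_add]
          congr 1
          omega
        have h14 : X ^ p ^ N = X ^ (p ^ N - 1) * X := by
          rw [← pow_succ]
          congr 1
          have h15 : 0 < p ^ N := Nat.pow_pos hp.pos
          omega
        rw [h13, h14]
        ring
      rw [h12]
      exact Dvd.dvd.mul_left (dvd_add (Dvd.dvd.mul_right h8 _) (Dvd.dvd.mul_left hXY _)) _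
    have h16 : σ X * Y = (σ X) ^ (1 + p ^ N * (q - 1)) * Y
        - ((σ X) ^ (1 + p ^ N * (q - 1)) - σ X) * Y := by
      ring
    rw [h16]
    exact dvd_sub h11 h7

end Pool.Agent.Helper97.Lander
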