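import Pool.Agent.Helper97.Lander.CountA

/-!
# Counting identities: pairs in cosets, colours
-/

set_option autoImplicit false

namespace Pool.Agent.Helper97.Lander

open Finset

variable {G : Type*} [AddCommGroup G] [Fintype G] [DecidableEq G] {p : ℕ} {Q : AddSubgroup G}
  {δ : G →+ G} {D : Finset G} {lam n ν : ℕ}

private theorem mem_Qf {Q : AddSubgroup G} {g : G} : g ∈ Qf Q ↔ g ∈ Q := by
  unfold Qf
  simp

private theorem card_Qf (Q : AddSubgroup G) : (Qf Q).card = Nat.card Q :=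
  (Nat.subtype_card (Qf Q) (fun _ => mem_Qf)).symm

private theorem diag_card (D : Finset G) :
    ((D ×ˢ D).filter (fun x => x.1 - x.2 = 0)).card = D.card := by
  have h : (D ×ˢ D).filter (fun x => x.1 - x.2 = 0) = D.image (fun d => (d, d)) := by
    ext x
    rw [mem_filter, mem_product, mem_image]
    constructor
    · rintro ⟨⟨h1, _⟩, h3⟩
      exact ⟨x.1, h1, Prod.ext rfl (sub_eq_zero.1 h3)⟩
    · rintro ⟨d, hd, rfl⟩
      exact ⟨⟨hd, hd⟩, sub_self d⟩
  rw [h, card_image_of_injective]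
  intro a b hab
  exact congrArg Prod.fst hab

private theorem diffs_fib (T : Finset G) : ((D ×ˢ D).filter (fun x => x.1 - x.2 ∈ T)).card =
    ∑ g ∈ T, ((D ×ˢ D).filter (fun x => x.1 - x.2 = g)).card := by
  rw [card_eq_sum_card_fiberwise (s := (D ×ˢ D).filter (fun x => x.1 - x.2 ∈ T))
    (f := fun x : G × G => x.1 - x.2) (t := T)
    (fun x hx => mem_coe.2 (mem_filter.1 (mem_coe.1 hx)).2)]
  refine sum_congr rfl fun g hg => ?_
  congr 1
  ext x
  simp only [mem_filter]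
  constructor
  · rintro ⟨⟨h1, _⟩, h3⟩
    exact ⟨h1, h3⟩
  · rintro ⟨h1, h3⟩
    exact ⟨⟨h1, by rw [h3]; exact hg⟩, h3⟩

private theorem diffs_card0 (hrep : Reps D lam) (T : Finset G) (h0 : (0 : G) ∉ T) :
    ((D ×ˢ D).filter (fun x => x.1 - x.2 ∈ T)).card = T.card * lam := by
  rw [diffs_fib, sum_congr rfl (fun g hg => hrep g (fun h => h0 (h ▸ hg))), sum_const,
    smul_eq_mul]

private theorem diffs_card (hrep : Reps D lam) (T : Finset G) (h0 : (0 : G) ∈ T) :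
    ((D ×ˢ D).filter (fun x => x.1 - x.2 ∈ T)).card = D.card + (T.card - 1) * lam := by
  rw [diffs_fib, ← add_sum_erase T _ h0, diag_card,
    sum_congr rfl (fun g hg => hrep g (ne_of_mem_erase hg)), sum_const, smul_eq_mul,
    card_erase_of_mem h0]

private def fbr (δ : G →+ G) (q : G) : Finset G := univ.filter (fun g => δ g = q)

private theorem fbr_card (hsurj : ∀ q ∈ Q, ∃ g, δ g = q) {q : G} (hq : q ∈ Q) :
    (fbr δ q).card = (fbr δ 0).card := by
  obtain ⟨g0, hg0⟩ := hsurj q hq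
  refine card_nbij' (fun g => g - g0) (fun g => g + g0) ?_ ?_ ?_ ?_
  · intro g hg
    have hg' := (mem_filter.1 (mem_coe.1 hg)).2
    refine mem_coe.2 (mem_filter.2 ⟨mem_univ _, ?_⟩)
    change δ (g - g0) = 0
    rw [map_sub, hg', hg0, sub_self]
  · intro g hg
    have hg' := (mem_filter.1 (mem_coe.1 hg)).2
    refine mem_coe.2 (mem_filter.2 ⟨mem_univ _, ?_⟩)
    change δ (g + g0) = q
    rw [map_add, hg', hg0, zero_add]
  · intro g _
    exact sub_add_cancel g g0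
  · intro g _
    exact add_sub_cancel_right g g0

private theorem fbr_mul (hδ : ∀ g, δ g ∈ Q) (hsurj : ∀ q ∈ Q, ∃ g, δ g = q) :
    Nat.card Q * (fbr δ 0).card = Fintype.card G := by
  have h1 : (univ : Finset G).card = ∑ q ∈ Qf Q, (fbr δ q).card :=
    card_eq_sum_card_fiberwise (s := (univ : Finset G)) (f := fun g : G => δ g) (t := Qf Q)
      (fun g _ => mem_coe.2 (mem_Qf.2 (hδ g)))
  rw [← card_univ, h1,
    sum_congr rfl (fun q hq => fbr_card (δ := δ) (Q := Q) hsurj (mem_Qf.1 hq)), sum_const,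
    card_Qf, smul_eq_mul]

private theorem conv (hδ : ∀ g, δ g ∈ Q) (e : G) :
    ∑ t ∈ Qf Q, col δ D t * col δ D (t + e) =
      ((D ×ˢ D).filter (fun x => x.1 - x.2 ∈ fbr δ (-e))).card := by
  rw [card_eq_sum_card_fiberwise (f := fun x : G × G => δ x.1) (t := Qf Q)
    (fun x _ => mem_coe.2 (mem_Qf.2 (hδ x.1)))]
  refine sum_congr rfl fun t _ => ?_
  unfold col
  rw [← card_product]
  congr 1
  ext x
  simp only [mem_filter, mem_product, fbr, mem_univ, true_and, map_sub]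
  constructor
  · rintro ⟨⟨h1, h2⟩, h3, h4⟩
    refine ⟨⟨⟨h1, h3⟩, ?_⟩, h2⟩
    rw [h2, h4]
    abel
  · rintro ⟨⟨⟨h1, h3⟩, h4⟩, h2⟩
    refine ⟨⟨h1, h2⟩, h3, ?_⟩
    rw [h2] at h4
    have h5 : δ x.2 = t - (t - δ x.2) := by abel
    rw [h5, h4]
    abel

/-- pairs of elements of `D` in the same coset of `Q` -/
theorem pairs (hrep : Reps D lam) (Q : AddSubgroup G) :
    ∑ d ∈ D, (fib Q D d).card = D.card + (Nat.card Q - 1) * lam := by
  classical
  rw [← card_Qf Q, ← diffs_card hrep (Qf Q) (mem_Qf.2 Q.zero_mem), card_filter,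
    sum_product_right]
  refine sum_congr rfl fun d _ => ?_
  unfold fib
  rw [card_filter]
  refine sum_congr rfl fun d' _ => ?_
  by_cases h : d' - d ∈ Q
  · rw [if_pos h, if_pos (mem_Qf.2 h)]
  · rw [if_neg h, if_neg (fun h' => h (mem_Qf.1 h'))]

theorem col_sum (hδ : ∀ g, δ g ∈ Q) : ∑ e ∈ Qf Q, col δ D e = D.card := by
  rw [card_eq_sum_card_fiberwise (s := D) (f := fun g : G => δ g) (t := Qf Q)
    (fun g _ => mem_coe.2 (mem_Qf.2 (hδ g)))]
  rfl

theorem col_sq (hrep : Reps D lam) (hk : D.card = n + lam) (hδ : ∀ g, δ g ∈ Q)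
    (hsurj : ∀ q ∈ Q, ∃ g, δ g = q) :
    Nat.card Q * ∑ e ∈ Qf Q, col δ D e ^ 2 = Nat.card Q * n + lam * Fintype.card G := by
  have h0 : (0 : G) ∈ fbr δ 0 := mem_filter.2 ⟨mem_univ _, map_zero δ⟩
  have h1 : ∑ e ∈ Qf Q, col δ D e ^ 2 = D.card + ((fbr δ 0).card - 1) * lam := by
    rw [← diffs_card hrep (fbr δ 0) h0]
    have h2 := conv (D := D) hδ 0
    rw [neg_zero] at h2
    rw [← h2]
    refine sum_congr rfl fun t _ => ?_
    rw [add_zero, sq]
  have hpos : 1 ≤ (fbr δ 0).card := card_pos.2 ⟨0, h0⟩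
  rw [h1, hk, ← fbr_mul hδ hsurj]
  obtain ⟨c, hc⟩ := Nat.exists_eq_add_of_le hpos
  rw [hc]
  have h3 : 1 + c - 1 = c := by omega
  rw [h3]
  ring

theorem col_shift (hrep : Reps D lam) (hδ : ∀ g, δ g ∈ Q) (hsurj : ∀ q ∈ Q, ∃ g, δ g = q)
    {e : G} (he : e ∈ Q) (he0 : e ≠ 0) :
    Nat.card Q * ∑ t ∈ Qf Q, col δ D t * col δ D (t + e) = lam * Fintype.card G := by
  have h0 : (0 : G) ∉ fbr δ (-e) := by
    intro h
    have h1 := (mem_filter.1 h).2
    rw [map_zero] at h1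
    exact he0 (neg_eq_zero.1 h1.symm)
  rw [conv hδ e, diffs_card0 hrep _ h0, fbr_card hsurj (Q.neg_mem he), ← fbr_mul hδ hsurj]
  ring

/-- `(p n_e - k)² ≤ (p-1)² n` -/
theorem col_bound (hrep : Reps D lam) (hk : D.card = n + lam) (hδ : ∀ g, δ g ∈ Q)
    (hsurj : ∀ q ∈ Q, ∃ g, δ g = q) {e : G} (he : e ∈ Q) :
    ((Nat.card Q : ℤ) * col δ D e - D.card) ^ 2 ≤ ((Nat.card Q : ℤ) - 1) ^ 2 * n := by
  have heQ : e ∈ Qf Q := mem_Qf.2 he
  have h1 : ∑ t ∈ (Qf Q).erase e, (col δ D t : ℤ) = D.card - col δ D e := by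
    have h2 := col_sum (D := D) (δ := δ) hδ
    rw [← add_sum_erase _ _ heQ] at h2
    have h3 : ((col δ D e + ∑ t ∈ (Qf Q).erase e, col δ D t : ℕ) : ℤ) = (D.card : ℤ) := by
      rw [h2]
    push_cast at h3
    linarith
  have h4 : (Nat.card Q : ℤ) * (∑ t ∈ (Qf Q).erase e, (col δ D t : ℤ) ^ 2) =
      Nat.card Q * n + lam * Fintype.card G - Nat.card Q * (col δ D e : ℤ) ^ 2 := by
    have h2 := col_sq hrep hk hδ hsurj
    rw [← add_sum_erase _ _ heQ] at h2
    have h3 : ((Nat.card Q * (col δ D e ^ 2 + ∑ t ∈ (Qf Q).erase e, col δ D t ^ 2) : ℕ) : ℤ) =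
        ((Nat.card Q * n + lam * Fintype.card G : ℕ) : ℤ) := by
      rw [h2]
    push_cast at h3
    linarith
  have h5 : ((D.card : ℕ) : ℤ) ^ 2 = n + lam * Fintype.card G := by
    have h2 := card_sq hrep hk
    exact_mod_cast h2
  have h6 : (((Qf Q).erase e).card : ℤ) = Nat.card Q - 1 := by
    rw [card_erase_of_mem heQ, card_Qf]
    have h7 : 1 ≤ Nat.card Q := Nat.card_pos
    push_cast [h7]
    ring
  have h8 := sq_sum_le_card_mul_sum_sq (s := (Qf Q).erase e) (f := fun t => (col δ D t : ℤ))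
  rw [h1, h6] at h8
  have h9 : (0 : ℤ) ≤ Nat.card Q := Nat.cast_nonneg _
  have h10 := mul_le_mul_of_nonneg_left h8 h9
  have h11 : (Nat.card Q : ℤ) * (((Nat.card Q : ℤ) - 1) *
      ∑ t ∈ (Qf Q).erase e, (col δ D t : ℤ) ^ 2) = ((Nat.card Q : ℤ) - 1) *
      (Nat.card Q * n + lam * Fintype.card G - Nat.card Q * (col δ D e : ℤ) ^ 2) := by
    rw [← h4]
    ring
  rw [h11] at h10
  have h12 : (lam : ℤ) * Fintype.card G = (D.card : ℤ) ^ 2 - n := by linarith
  rw [h12] at h10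
  nlinarith [h10]

end Pool.Agent.Helper97.Lander
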