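import Pool.Agent.Helper97.Lander.CountA
import Pool.Agent.Helper97.Lander.CountB

/-!
# All single elements have the same colour
-/

set_option autoImplicit false

namespace Pool.Agent.Helper97.Lander

open Finset

variable {G : Type*} [AddCommGroup G] [Fintype G] [DecidableEq G] {p : ℕ} {Q : AddSubgroup G}
  {δ : G →+ G} {D : Finset G} {lam n ν : ℕ}

omit [Fintype G] [DecidableEq G] in
private theorem memfibA {Q : AddSubgroup G} {D : Finset G} {y d : G} :
    d ∈ fib Q D y ↔ d ∈ D ∧ d - y ∈ Q := by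
  unfold fib
  simp

omit [Fintype G] [DecidableEq G] in
private theorem self_fib {d : G} (hd : d ∈ D) : d ∈ fib Q D d :=
  memfibA.2 ⟨hd, by rw [sub_self]; exact Q.zero_mem⟩

omit [Fintype G] [DecidableEq G] in
private theorem two_le_fib {d : G} (hd : d ∈ D) (h : fib Q D d ≠ {d}) : 2 ≤ (fib Q D d).card := by
  by_contra hlt
  apply h
  have h1 : 0 < (fib Q D d).card := card_pos.2 ⟨d, self_fib hd⟩
  have h2 : (fib Q D d).card = 1 := by omega
  obtain ⟨a, ha⟩ := card_eq_one.1 h2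
  have h3 : d ∈ fib Q D d := self_fib hd
  rw [ha, mem_singleton] at h3
  rw [ha, h3]

/-- The elements which are not single. -/
private noncomputable def Bd (Q : AddSubgroup G) (D : Finset G) : Finset G :=
  D.filter (fun d => fib Q D d ≠ {d})

private theorem sum_excess (S : Sit p Q δ D lam n ν) :
    ∑ d ∈ D, ((fib Q D d).card - 1) = (p - 1) * lam := by
  have h := pairs S.hrep Q
  rw [S.hQ] at h
  have h1 : ∑ d ∈ D, (fib Q D d).card = ∑ d ∈ D, ((fib Q D d).card - 1) + D.card := by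
    rw [← mul_one D.card, ← smul_eq_mul D.card 1, ← sum_const, ← sum_add_distrib]
    refine sum_congr rfl fun d hd => ?_
    have : 0 < (fib Q D d).card := card_pos.2 ⟨d, self_fib hd⟩
    omega
  omega

omit [Fintype G] in
private theorem excess_Bd (Q : AddSubgroup G) (D : Finset G) :
    ∑ d ∈ Bd Q D, ((fib Q D d).card - 1) = ∑ d ∈ D, ((fib Q D d).card - 1) := by
  unfold Bd
  apply sum_subset (filter_subset _ _)
  intro d hd hn
  rw [mem_filter, not_and, not_not] at hn
  rw [hn hd, card_singleton, Nat.sub_self]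

private theorem Bd_le (S : Sit p Q δ D lam n ν) : (Bd Q D).card ≤ (p - 1) * lam := by
  rw [← sum_excess S, ← excess_Bd, card_eq_sum_ones]
  refine sum_le_sum fun d hd => ?_
  unfold Bd at hd
  rw [mem_filter] at hd
  have := two_le_fib hd.1 hd.2
  omega

omit [Fintype G] in
private theorem Bd_col {e : G} (h : ∀ d ∈ D, fib Q D d = {d} → δ d = e) :
    D \ Bd Q D ⊆ D.filter (fun d => δ d = e) := by
  intro d hd
  rw [mem_sdiff] at hd
  refine mem_filter.2 ⟨hd.1, h d hd.1 ?_⟩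
  by_contra hne
  exact hd.2 (mem_filter.2 ⟨hd.1, hne⟩)

omit [Fintype G] in
private theorem Bd_add (Q : AddSubgroup G) (D : Finset G) :
    (D \ Bd Q D).card + (Bd Q D).card = D.card :=
  card_sdiff_add_card_eq_card (filter_subset _ _)

theorem caseA (S : Sit p Q δ D lam n ν) (h : OneColour Q δ D) :
    lam = p ∧ n = p ^ 2 ∧ p ^ ν = p * lam := by
  obtain ⟨e, he, h⟩ := h
  have hb := col_bound S.hrep S.hk S.hδ S.hsurj he
  rw [S.hQ, S.hk] at hb
  have h1 := Bd_le S
  have h2 := card_le_card (Bd_col h)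
  have h3 := Bd_add Q D
  rw [S.hk] at h3
  have h4 : (D.filter (fun d => δ d = e)).card = col δ D e := rfl
  rw [h4] at h2
  have hp := S.hp.two_le
  have hpow : p ^ ν ≤ n := Nat.le_of_dvd S.hn0 S.hn
  have hle := S.hle
  have hlp : p ≤ lam := Nat.le_of_dvd S.hlam0 S.hlam
  have h5 : n + lam ≤ col δ D e + (p - 1) * lam := by omega
  -- integers
  have h5z : (n : ℤ) + lam ≤ col δ D e + ((p : ℤ) - 1) * lam := by
    have : ((n + lam : ℕ) : ℤ) ≤ ((col δ D e + (p - 1) * lam : ℕ) : ℤ) := by exact_mod_cast h5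
    push_cast [Nat.cast_sub (by omega : 1 ≤ p)] at this
    exact this
  have hpz : (2 : ℤ) ≤ p := by exact_mod_cast hp
  have hnz : (p : ℤ) * lam ≤ n := by exact_mod_cast le_trans hle hpow
  have hl0 : (0 : ℤ) < lam := by exact_mod_cast S.hlam0
  have hn0 : (0 : ℤ) < n := by exact_mod_cast S.hn0
  push_cast at hb
  set c : ℤ := (col δ D e : ℤ) with hc
  set w : ℤ := (n : ℤ) - ((p : ℤ) - 1) * lam with hw
  have hw0 : 0 < w := by rw [hw]; nlinarith
  have h6 : ((p : ℤ) - 1) * w ≤ p * c - (n + lam) := by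
    rw [hw]
    nlinarith
  have h7 : (((p : ℤ) - 1) * w) ^ 2 ≤ ((p : ℤ) - 1) ^ 2 * n := by
    refine le_trans ?_ hb
    apply pow_le_pow_left₀ _ h6
    have : (0 : ℤ) ≤ (p : ℤ) - 1 := by linarith
    exact mul_nonneg this hw0.le
  have h8 : w ^ 2 ≤ n := by
    rw [mul_pow] at h7
    have hpp : (0 : ℤ) < ((p : ℤ) - 1) ^ 2 := by
      have : (0 : ℤ) < (p : ℤ) - 1 := by linarith
      positivity
    exact le_of_mul_le_mul_left h7 hpp
  have h9 : (n : ℤ) ≤ p * w := by
    rw [hw]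
    nlinarith
  have h10 : (n : ℤ) ^ 2 ≤ (p : ℤ) ^ 2 * n := by
    calc (n : ℤ) ^ 2 ≤ (p * w) ^ 2 := pow_le_pow_left₀ hn0.le h9 2
      _ = (p : ℤ) ^ 2 * w ^ 2 := by ring
      _ ≤ (p : ℤ) ^ 2 * n := mul_le_mul_of_nonneg_left h8 (by positivity)
  have h11 : (n : ℤ) ≤ (p : ℤ) ^ 2 := by
    have : (n : ℤ) * n ≤ (p : ℤ) ^ 2 * n := by rw [← sq]; exact h10
    exact le_of_mul_le_mul_right this hn0
  have h12 : n ≤ p ^ 2 := by exact_mod_cast h11
  have h13 : p ^ 2 ≤ p * lam := by
    rw [sq]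
    exact Nat.mul_le_mul_left p hlp
  have h14 : p * lam = p ^ 2 := by omega
  refine ⟨?_, by omega, by omega⟩
  rw [sq] at h14
  exact Nat.eq_of_mul_eq_mul_left S.hp.pos h14

theorem caseA_one (S : Sit p Q δ D lam n ν) (h : OneColour Q δ D)
    (hsq : ¬ p ^ 2 ∣ Fintype.card G) : False := by
  obtain ⟨h1, h2, _⟩ := caseA S h
  have h3 := card_sq S.hrep S.hk
  rw [S.hk, h1, h2] at h3
  apply hsq
  have hp := S.hp.pos
  have h4 : p * (p * (p + 1) ^ 2) = p * (p + Fintype.card G) := by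
    have e1 : p * (p * (p + 1) ^ 2) = (p ^ 2 + p) ^ 2 := by ring
    rw [e1, h3]
    ring
  have h5 := Nat.eq_of_mul_eq_mul_left hp h4
  have h6 : p * (p + 1) ^ 2 = p + p ^ 2 * (p + 2) := by ring
  rw [h6] at h5
  exact ⟨p + 2, (Nat.add_left_cancel h5).symm⟩

theorem caseA_odd (S : Sit p Q δ D lam n ν) (hp2 : p ≠ 2) (h0 : ∀ q ∈ Q, δ q = 0)
    (h : OneColour Q δ D) : False := by
  classical
  obtain ⟨hl, hn, _⟩ := caseA S h
  obtain ⟨e, he, h⟩ := h
  have hp := S.hp.two_le
  have hp3 : 3 ≤ p := by omega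
  have hk : D.card = p ^ 2 + p := by rw [S.hk, hl, hn]
  have hmem : ∀ g, g ∈ Qf Q ↔ g ∈ Q := by
    intro g
    unfold Qf
    simp
  have hcardQ : (Qf Q).card = p := by
    rw [← S.hQ]
    exact (Nat.subtype_card (Qf Q) hmem).symm
  have hb := col_bound S.hrep S.hk S.hδ S.hsurj he
  rw [S.hQ, hk, hn] at hb
  have h1 := Bd_le S
  have h2 := card_le_card (Bd_col h)
  have h3 := Bd_add Q D
  have h4 : (D.filter (fun d => δ d = e)).card = col δ D e := rfl
  rw [h4] at h2
  rw [hl] at h1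
  rw [hk] at h3
  have hpp : (p - 1) * p = p ^ 2 - p := by
    rw [Nat.sub_mul, one_mul, sq]
  have hpp2 : p ≤ p ^ 2 := by
    rw [sq]
    exact Nat.le_mul_of_pos_right p (by omega)
  rw [hpp] at h1
  -- upper bound for the colour e
  have h5 : (col δ D e : ℤ) ≤ 2 * p := by
    push_cast at hb
    have e1 : ((p : ℤ) - 1) ^ 2 * (p : ℤ) ^ 2 = (((p : ℤ) - 1) * p) ^ 2 := by ring
    rw [e1] at hb
    have hp0 : (0 : ℤ) < p := by
      have : 0 < p := by omega
      exact_mod_cast this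
    have hp1 : (0 : ℤ) ≤ ((p : ℤ) - 1) * p := by
      have : (0 : ℤ) ≤ (p : ℤ) - 1 := by linarith
      exact mul_nonneg this hp0.le
    have e2 := abs_le_of_sq_le_sq' hb hp1
    have e3 : (p : ℤ) * col δ D e ≤ p * (2 * p) := by nlinarith [e2.2]
    exact le_of_mul_le_mul_left e3 hp0
  have h5' : col δ D e ≤ 2 * p := by exact_mod_cast h5
  have hce : col δ D e = 2 * p := by omega
  have hBd : (Bd Q D).card = p ^ 2 - p := by omega
  have hsd : (D \ Bd Q D).card = 2 * p := by omega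
  have heq : D \ Bd Q D = D.filter (fun d => δ d = e) :=
    eq_of_subset_of_card_le (Bd_col h) (by rw [h4, hsd, hce])
  -- every element of another colour has a fibre with two elements
  have hex : ∀ d ∈ Bd Q D, (fib Q D d).card = 2 := by
    have e1 := sum_excess S
    rw [← excess_Bd, hl, hpp, ← hBd, card_eq_sum_ones] at e1
    have e2 : ∀ d ∈ Bd Q D, 1 ≤ (fib Q D d).card - 1 := by
      intro d hd
      unfold Bd at hd
      rw [mem_filter] at hd
      have := two_le_fib hd.1 hd.2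
      omega
    have e3 := (sum_eq_sum_iff_of_le e2).1 e1.symm
    intro d hd
    have := e3 d hd
    omega
  have hcolB : ∀ d ∈ D, δ d ≠ e → (fib Q D d).card = 2 := by
    intro d hd hne
    apply hex
    by_contra hn'
    have : d ∈ D \ Bd Q D := mem_sdiff.2 ⟨hd, hn'⟩
    rw [heq, mem_filter] at this
    exact hne this.2
  -- the numbers of elements of the other colours are even
  have hev : ∀ t ∈ Q, t ≠ e → ((col δ D t : ℕ) : ZMod 2) = 0 := by
    intro t ht hte
    have e1 : ((col δ D t : ℕ) : ZMod 2) = ∑ x ∈ D.filter (fun d => δ d = t), (1 : ZMod 2) := by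
      rw [sum_const, nsmul_eq_mul, mul_one]
      rfl
    rw [e1]
    have key : ∀ x ∈ D.filter (fun d => δ d = t), ∃ z, z ≠ x ∧ fib Q D x = {x, z} ∧
        (∑ y ∈ fib Q D x, y) - x = z ∧ z ∈ D.filter (fun d => δ d = t) ∧ fib Q D z = {x, z} := by
      intro x hx
      rw [mem_filter] at hx
      have hx2 : δ x ≠ e := by rw [hx.2]; exact hte
      have c2 := hcolB x hx.1 hx2
      have hxm : x ∈ fib Q D x := self_fib hx.1
      obtain ⟨z, hz⟩ : ∃ z, (fib Q D x).erase x = {z} := by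
        rw [← card_eq_one, card_erase_of_mem hxm, c2]
      have hfx : fib Q D x = {x, z} := by
        rw [← insert_erase hxm, hz]
      have hzx : z ≠ x := by
        have : z ∈ (fib Q D x).erase x := by rw [hz]; exact mem_singleton_self z
        exact (mem_erase.1 this).1
      have hzf : z ∈ fib Q D x := by rw [hfx]; simp
      obtain ⟨hzD, hzQ⟩ := memfibA.1 hzf
      refine ⟨z, hzx, hfx, ?_, ?_, ?_⟩
      · rw [hfx, sum_pair hzx.symm]
        abel
      · refine mem_filter.2 ⟨hzD, ?_⟩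
        have e2 := h0 _ hzQ
        rw [map_sub, sub_eq_zero] at e2
        rw [e2, hx.2]
      · rw [← hfx]
        ext y
        rw [memfibA, memfibA]
        constructor
        · rintro ⟨a, b⟩
          refine ⟨a, ?_⟩
          have : y - x = (y - z) + (z - x) := by abel
          rw [this]
          exact Q.add_mem b hzQ
        · rintro ⟨a, b⟩
          refine ⟨a, ?_⟩
          have : y - z = (y - x) - (z - x) := by abel
          rw [this]
          exact Q.sub_mem b hzQ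
    refine sum_involution (fun x _ => (∑ y ∈ fib Q D x, y) - x) ?_ ?_ ?_ ?_
    · intro x _
      decide
    · intro x hx _
      obtain ⟨z, hz, _, hzs, _, _⟩ := key x hx
      show (∑ y ∈ fib Q D x, y) - x ≠ x
      rw [hzs]
      exact hz
    · intro x hx
      obtain ⟨z, hz, _, hzs, hzm, _⟩ := key x hx
      show (∑ y ∈ fib Q D x, y) - x ∈ _
      rw [hzs]
      exact hzm
    · intro x hx
      obtain ⟨z, hz, _, hzs, _, hzf⟩ := key x hx
      show (∑ y ∈ fib Q D ((∑ y ∈ fib Q D x, y) - x), y) - ((∑ y ∈ fib Q D x, y) - x) = x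
      rw [hzs, hzf, sum_pair hz.symm]
      abel
  -- but they are all equal to p
  have heQ : e ∈ Qf Q := (hmem e).2 he
  have hp0 : (0 : ℤ) < p := by
    have : 0 < p := by omega
    exact_mod_cast this
  have s1 : ∑ t ∈ (Qf Q).erase e, (col δ D t : ℤ) = (p : ℤ) ^ 2 - p := by
    have e1 := col_sum (D := D) (δ := δ) S.hδ
    rw [← add_sum_erase _ _ heQ, hce, hk] at e1
    have e2 : ((2 * p + ∑ t ∈ (Qf Q).erase e, col δ D t : ℕ) : ℤ) = ((p ^ 2 + p : ℕ) : ℤ) := by
      rw [e1]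
    push_cast at e2
    linarith
  have s2 : ∑ t ∈ (Qf Q).erase e, (col δ D t : ℤ) ^ 2 = (p : ℤ) ^ 3 - (p : ℤ) ^ 2 := by
    have e1 := col_sq S.hrep S.hk S.hδ S.hsurj
    have e3 := card_sq S.hrep S.hk
    rw [← add_sum_erase _ _ heQ, hce, S.hQ, hn, hl] at e1
    rw [hk, hn, hl] at e3
    have e2 : ((p * ((2 * p) ^ 2 + ∑ t ∈ (Qf Q).erase e, col δ D t ^ 2) : ℕ) : ℤ) =
        ((p * p ^ 2 + p * Fintype.card G : ℕ) : ℤ) := by
      rw [e1]
    have e4 : (((p ^ 2 + p) ^ 2 : ℕ) : ℤ) = ((p ^ 2 + p * Fintype.card G : ℕ) : ℤ) := by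
      rw [e3]
    push_cast at e2 e4
    have e5 : (p : ℤ) * (∑ t ∈ (Qf Q).erase e, (col δ D t : ℤ) ^ 2) =
        p * ((p : ℤ) ^ 3 - (p : ℤ) ^ 2) := by
      nlinarith
    exact mul_left_cancel₀ hp0.ne' e5
  have s3 : ∑ t ∈ (Qf Q).erase e, ((col δ D t : ℤ) - p) ^ 2 = 0 := by
    have e1 : ∀ t : G, ((col δ D t : ℤ) - p) ^ 2 =
        (col δ D t : ℤ) ^ 2 - 2 * p * (col δ D t : ℤ) + (p : ℤ) ^ 2 := by
      intro t
      ring
    rw [sum_congr rfl (fun t _ => e1 t), sum_add_distrib, sum_sub_distrib, ← mul_sum, s1, s2,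
      sum_const, card_erase_of_mem heQ, hcardQ, nsmul_eq_mul, Nat.cast_sub (by omega : 1 ≤ p)]
    push_cast
    ring
  obtain ⟨t, ht⟩ : ((Qf Q).erase e).Nonempty := by
    rw [← card_pos, card_erase_of_mem heQ, hcardQ]
    omega
  have s4 := (sum_eq_zero_iff_of_nonneg (fun t _ => sq_nonneg ((col δ D t : ℤ) - p))).1 s3 t ht
  have s5 : (col δ D t : ℤ) = p := by
    have := pow_eq_zero_iff (two_ne_zero) |>.1 s4
    linarith
  have s6 : col δ D t = p := by exact_mod_cast s5
  have s7 := hev t ((hmem t).1 (mem_erase.1 ht).2) (mem_erase.1 ht).1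
  rw [s6, ZMod.natCast_eq_zero_iff] at s7
  rcases (Nat.dvd_prime S.hp).1 s7 with h2' | h2'
  · omega
  · exact hp2 h2'.symm

end Pool.Agent.Helper97.Lander
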