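import Pool.Agent.Helper97.Lander.Fibre

/-!
# Two single elements of different colours
-/

set_option autoImplicit false

namespace Pool.Agent.Helper97.Lander

open Finset

variable {G : Type*} [AddCommGroup G] [Fintype G] [DecidableEq G] {p : ℕ} {Q : AddSubgroup G}
  {δ : G →+ G} {D : Finset G} {lam n ν : ℕ}

theorem two_strict (S : Sit p Q δ D lam n ν) (h : TwoColours Q δ D) (hlt : p * lam < p ^ ν) :
    False := by
  obtain ⟨d, hd, d', hd', h1, h1', hne⟩ := h
  obtain ⟨a, b⟩ := single S hd h1
  obtain ⟨a', b'⟩ := single S hd' h1'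
  have hM : Mal Q δ D lam d = 0 := by
    by_contra h0
    have := a h0
    omega
  have hM' : Mal Q δ D lam d' = 0 := by
    by_contra h0
    have := a' h0
    omega
  have c := b (δ d) (S.hδ d)
  have c' := b' (δ d) (S.hδ d)
  rw [if_pos rfl, if_pos rfl, hM] at c
  rw [if_neg hne, if_neg hne, hM'] at c'
  have := S.hn0
  simp only [mul_zero, add_zero] at c c'
  omega

theorem two (S : Sit p Q δ D lam n ν) (h : TwoColours Q δ D) (hp2 : p ≠ 2) :
    ∃ M : ℕ, 0 < M ∧ n = p * lam * M ∧ p ^ ν = p * lam ∧ (∀ t ∈ Q, cnt δ D t = lam * (1 + M)) ∧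
      (∀ d ∈ D, fib Q D d = {d} → Mal Q δ D lam d = M) ∧
      (∀ y, 2 ≤ (fib Q D y).card → (fib Q D y).card = p) := by
  classical
  obtain ⟨d, hd, d', hd', h1, h1', hne⟩ := h
  obtain ⟨a, b⟩ := single S hd h1
  obtain ⟨a', b'⟩ := single S hd' h1'
  have hlam := S.hlam0
  have hp3 : 3 ≤ p := by
    have := S.hp.two_le
    omega
  have hmem : ∀ g, g ∈ Qf Q ↔ g ∈ Q := by
    intro g
    unfold Qf
    simp
  have hcard : (Qf Q).card = p := by
    rw [← S.hQ]
    exact (Nat.subtype_card (Qf Q) hmem).symm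
  have hfind : ∀ x y : G, ∃ t ∈ Q, t ≠ x ∧ t ≠ y := by
    intro x y
    have : ({x, y} : Finset G).card < (Qf Q).card := by
      rw [hcard]
      exact lt_of_le_of_lt (card_le_two) (by omega)
    obtain ⟨t, ht, htn⟩ := exists_mem_notMem_of_card_lt_card this
    rw [mem_insert, mem_singleton, not_or] at htn
    exact ⟨t, (hmem t).1 ht, htn.1, htn.2⟩
  set M := Mal Q δ D lam d with hMdef
  set M' := Mal Q δ D lam d' with hMdef'
  have hMM : M' = M := by
    obtain ⟨t, ht, t1, t2⟩ := hfind (δ d) (δ d')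
    have c := b t ht
    have c' := b' t ht
    rw [if_neg t1, if_neg t1, add_zero, add_zero] at c
    rw [if_neg t2, if_neg t2, add_zero, add_zero] at c'
    have := Nat.eq_of_mul_eq_mul_left hlam (c'.symm.trans c)
    omega
  have c := b (δ d) (S.hδ d)
  have c' := b' (δ d) (S.hδ d)
  rw [if_pos rfl, if_pos rfl] at c
  rw [if_neg hne, if_neg hne, add_zero, add_zero, hMM] at c'
  have hn : n = p * lam * M := by omega
  have hM0 : 0 < M := by
    rcases Nat.eq_zero_or_pos M with h0 | h0
    · rw [h0, mul_zero] at hn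
      exact absurd hn S.hn0.ne'
    · exact h0
  have hcnt : ∀ t ∈ Q, cnt δ D t = lam * (1 + M) := by
    intro t ht
    by_cases htd : t = δ d
    · rw [htd]
      exact c'
    · have := b t ht
      rw [if_neg htd, if_neg htd, add_zero, add_zero] at this
      exact this
  refine ⟨M, hM0, hn, a hM0.ne', hcnt, ?_, ?_⟩
  · intro x hx hx1
    obtain ⟨_, bx⟩ := single S hx hx1
    obtain ⟨t, ht, t1, _⟩ := hfind (δ x) (δ x)
    have := bx t ht
    rw [if_neg t1, if_neg t1, add_zero, add_zero, hcnt t ht] at this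
    have := Nat.eq_of_mul_eq_mul_left hlam this
    omega
  · intro y hy
    have hm := multi S hy
    have e1 : ∑ x ∈ fib Q D y, cnt δ D (y - x) = (fib Q D y).card * (lam * (1 + M)) := by
      rw [← smul_eq_mul, ← sum_const]
      refine sum_congr rfl fun x hx => ?_
      apply hcnt
      unfold fib at hx
      rw [mem_filter] at hx
      rw [← neg_sub]
      exact Q.neg_mem hx.2
    rw [e1] at hm
    have hpos : 0 < (fib Q D y).card := by omega
    have e2 : (fib Q D y).card * (lam * (1 + M)) =
        lam * (fib Q D y).card + (fib Q D y).card * (lam * M) := by ring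
    rw [e2] at hm
    have e3 := Nat.add_left_cancel hm
    have hlM : 0 < lam * M := Nat.mul_pos hlam hM0
    by_cases hex : ∃ x ∈ D, x + δ x = y
    · rw [if_pos hex, hn, mul_assoc] at e3
      exact Nat.eq_of_mul_eq_mul_right hlM e3
    · rw [if_neg hex] at e3
      have := Nat.mul_pos hpos hlM
      omega

end Pool.Agent.Helper97.Lander
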