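import Pool.Agent.Helper97.Lander.CountB

/-!
# Full cosets: the single elements are equidistributed over the colours
-/

set_option autoImplicit false

namespace Pool.Agent.Helper97.Lander

open Finset

variable {G : Type*} [AddCommGroup G] [Fintype G] [DecidableEq G] {p : ℕ} {Q : AddSubgroup G}
  {δ : G →+ G} {D : Finset G} {lam n ν : ℕ}

private theorem mem_fib' {d y : G} : d ∈ fib Q D y ↔ d ∈ D ∧ d - y ∈ Q := by
  classical
  unfold fib
  rw [mem_filter]

private theorem self_mem_fib' {d : G} (hd : d ∈ D) : d ∈ fib Q D d :=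
  mem_fib'.2 ⟨hd, by rw [sub_self]; exact Q.zero_mem⟩

private theorem card_Qf' (S : Sit p Q δ D lam n ν) : (Qf Q).card = p := by
  classical
  rw [← S.hQ]
  exact (Nat.subtype_card (Qf Q) (fun x => by unfold Qf; simp)).symm

private theorem two_le_fib' {d : G} (hd : d ∈ D) (h : fib Q D d ≠ {d}) : 2 ≤ (fib Q D d).card := by
  by_contra hcon
  have h1 : (fib Q D d).card ≤ 1 := by omega
  apply h
  ext x
  rw [mem_singleton]
  constructor
  · intro hx
    exact Finset.card_le_one.1 h1 x hx d (self_mem_fib' hd)
  · rintro rfl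
    exact self_mem_fib' hd

private theorem full_mem' (S : Sit p Q δ D lam n ν) {d q : G} (hfull : (fib Q D d).card = p)
    (hq : q ∈ Q) : d + q ∈ D := by
  classical
  have h1 : fib Q D d ⊆ (Qf Q).image (fun q => d + q) := by
    intro x hx
    rw [mem_fib'] at hx
    rw [mem_image]
    refine ⟨x - d, ?_, by abel⟩
    unfold Qf
    rw [mem_filter]
    exact ⟨mem_univ _, hx.2⟩
  have h2 : ((Qf Q).image (fun q => d + q)).card ≤ (fib Q D d).card := by
    rw [hfull, ← card_Qf' S]
    exact card_image_le
  have h3 := Finset.eq_of_subset_of_card_le h1 h2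
  have h4 : d + q ∈ (Qf Q).image (fun q => d + q) := by
    rw [mem_image]
    refine ⟨q, ?_, rfl⟩
    unfold Qf
    rw [mem_filter]
    exact ⟨mem_univ _, hq⟩
  rw [← h3, mem_fib'] at h4
  exact h4.1

/-- the number of elements of `D` in full cosets is `lam` -/
theorem two_full (S : Sit p Q δ D lam n ν)
    (hfull : ∀ y, 2 ≤ (fib Q D y).card → (fib Q D y).card = p) :
    (D.filter (fun d => fib Q D d ≠ {d})).card = lam := by
  classical
  have hp := pairs S.hrep Q
  rw [S.hQ] at hp
  have h1 : ∑ d ∈ D, (fib Q D d).card =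
      ∑ d ∈ D, (1 + if fib Q D d ≠ {d} then p - 1 else 0) := by
    apply Finset.sum_congr rfl
    intro d hd
    by_cases h : fib Q D d = {d}
    · rw [if_neg (not_not.2 h), h, card_singleton]
    · rw [if_pos h, hfull d (two_le_fib' hd h)]
      have := S.hp.two_le
      omega
  rw [h1, sum_add_distrib, sum_const, ← Finset.sum_filter, sum_const] at hp
  simp only [smul_eq_mul, mul_one] at hp
  have h2 : (D.filter (fun d => fib Q D d ≠ {d})).card * (p - 1) = (p - 1) * lam := by omega
  have h3 : 0 < p - 1 := by
    have := S.hp.two_le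
    omega
  rw [mul_comm (p - 1) lam] at h2
  exact Nat.eq_of_mul_eq_mul_right h3 h2

/-- the single elements are equidistributed over the colours -/
theorem two_cnt (S : Sit p Q δ D lam n ν) {M : ℕ}
    (hc : ∀ t ∈ Q, cnt δ D t = lam * (1 + M))
    (hfull : ∀ y, 2 ≤ (fib Q D y).card → (fib Q D y).card = p) {t : G} (ht : t ∈ Q) :
    (D.filter (fun d => fib Q D d = {d} ∧ δ d = t)).card = lam * M := by
  classical
  have h1 := hc t ht
  have h2 : cnt δ D t = (D.filter (fun d => d + δ d - t ∈ D)).card := by
    unfold cnt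
    apply Finset.card_bij (fun x _ => x.1)
    · intro x hx
      rw [mem_filter, mem_product] at hx
      rw [mem_filter]
      refine ⟨hx.1.1, ?_⟩
      have h3 : x.1 + δ x.1 - t = x.2 := by
        rw [← hx.2]
        abel
      rw [h3]
      exact hx.1.2
    · intro x hx y hy hxy
      rw [mem_filter] at hx hy
      have h3 : x.2 = x.1 + δ x.1 - t := by
        rw [← hx.2]
        abel
      have h4 : y.2 = y.1 + δ y.1 - t := by
        rw [← hy.2]
        abel
      apply Prod.ext hxy
      rw [h3, h4, hxy]
    · intro d hd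
      rw [mem_filter] at hd
      refine ⟨(d, d + δ d - t), ?_, rfl⟩
      rw [mem_filter, mem_product]
      refine ⟨⟨hd.1, hd.2⟩, ?_⟩
      show d + δ d - (d + δ d - t) = t
      abel
  have h3 : D.filter (fun d => d + δ d - t ∈ D) =
      D.filter (fun d => fib Q D d = {d} ∧ δ d = t) ∪ D.filter (fun d => fib Q D d ≠ {d}) := by
    ext d
    rw [mem_union, mem_filter, mem_filter, mem_filter]
    constructor
    · rintro ⟨hd, hd2⟩
      by_cases h : fib Q D d = {d}
      · left
        refine ⟨hd, h, ?_⟩
        have h4 : d + δ d - t ∈ fib Q D d := by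
          rw [mem_fib']
          refine ⟨hd2, ?_⟩
          have h5 : d + δ d - t - d = δ d - t := by abel
          rw [h5]
          exact Q.sub_mem (S.hδ d) ht
        rw [h, mem_singleton] at h4
        have h6 : δ d - t = (d + δ d - t) - d := by abel
        rw [h4, sub_self] at h6
        exact sub_eq_zero.1 h6
      · right
        exact ⟨hd, h⟩
    · rintro (⟨hd, _, h⟩ | ⟨hd, h⟩)
      · refine ⟨hd, ?_⟩
        rw [h, add_sub_cancel_right]
        exact hd
      · refine ⟨hd, ?_⟩
        have h5 := full_mem' S (hfull d (two_le_fib' hd h)) (Q.sub_mem (S.hδ d) ht)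
        have h6 : d + δ d - t = d + (δ d - t) := by abel
        rw [h6]
        exact h5
  have h4 : Disjoint (D.filter (fun d => fib Q D d = {d} ∧ δ d = t))
      (D.filter (fun d => fib Q D d ≠ {d})) := by
    rw [Finset.disjoint_left]
    intro d hd hd'
    rw [mem_filter] at hd hd'
    exact hd'.2 hd.2.1
  rw [h2, h3, card_union_of_disjoint h4, two_full S hfull] at h1
  rw [mul_add, mul_one] at h1
  omega

end Pool.Agent.Helper97.Lander
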