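import Pool.Agent.Helper97.Lander.Defs

/-!
# Small facts about the cosets of `Q`
-/

set_option autoImplicit false

namespace Pool.Agent.Helper97.Lander

open Finset

variable {G : Type*} [AddCommGroup G] [Fintype G] [DecidableEq G] {p : ℕ} {Q : AddSubgroup G}
  {δ : G →+ G} {D : Finset G} {lam n ν : ℕ}

omit [DecidableEq G] in
theorem b3_mem_Qf {g : G} : g ∈ Qf Q ↔ g ∈ Q := by
  simp [Qf]

omit [Fintype G] [DecidableEq G] in
theorem b3_mem_fib {y d : G} : d ∈ fib Q D y ↔ d ∈ D ∧ d - y ∈ Q := by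
  simp [fib]

omit [Fintype G] [DecidableEq G] in
theorem b3_self_mem_fib {d : G} (hd : d ∈ D) : d ∈ fib Q D d := by
  rw [b3_mem_fib]
  exact ⟨hd, by simp [Q.zero_mem]⟩

theorem b3_two_le {d : G} (hd : d ∈ D) (h : fib Q D d ≠ {d}) : 2 ≤ (fib Q D d).card := by
  by_contra hlt
  have h1 : (fib Q D d).card = 1 := by
    have : 0 < (fib Q D d).card := Finset.card_pos.2 ⟨d, b3_self_mem_fib hd⟩
    omega
  obtain ⟨x, hx⟩ := Finset.card_eq_one.1 h1
  have : d ∈ ({x} : Finset G) := hx ▸ b3_self_mem_fib hd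
  rw [Finset.mem_singleton] at this
  subst this
  exact h hx

omit [Fintype G] [DecidableEq G] in
theorem b3_fib_add {y q : G} (hq : q ∈ Q) : fib Q D (y + q) = fib Q D y := by
  ext d
  rw [b3_mem_fib, b3_mem_fib]
  have : d - (y + q) ∈ Q ↔ d - y ∈ Q := by
    have e : d - (y + q) = (d - y) - q := by abel
    rw [e]
    exact ⟨fun h => by simpa using Q.add_mem h hq, fun h => Q.sub_mem h hq⟩
  rw [this]

omit [DecidableEq G] in
theorem b3_card_Qf : (Qf Q).card = Nat.card Q := by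
  classical
  rw [Nat.card_eq_fintype_card, Fintype.card_subtype]
  simp only [Qf]

theorem b3_full_mem (hQ : Nat.card Q = p) {y q : G} (hc : (fib Q D y).card = p) (hq : q ∈ Q) :
    y + q ∈ D := by
  have hsub : fib Q D y ⊆ (Qf Q).image (fun z => y + z) := by
    intro d hd
    rw [b3_mem_fib] at hd
    rw [Finset.mem_image]
    exact ⟨d - y, b3_mem_Qf.2 hd.2, by abel⟩
  have hcard : ((Qf Q).image (fun z => y + z)).card = p := by
    rw [Finset.card_image_of_injective _ (add_right_injective y), b3_card_Qf, hQ]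
  have heq := Finset.eq_of_subset_of_card_le hsub (by rw [hcard, hc])
  have : y + q ∈ fib Q D y := by
    rw [heq, Finset.mem_image]
    exact ⟨q, b3_mem_Qf.2 hq, rfl⟩
  exact (b3_mem_fib.1 this).1

theorem exists_ne_Q (S : Sit p Q δ D lam n ν) : ∃ e ∈ Q, e ≠ 0 := by
  have h1 : 1 < Nat.card Q := by rw [S.hQ]; exact S.hp.one_lt
  have : Nontrivial Q := (Finite.one_lt_card_iff_nontrivial).1 h1
  obtain ⟨e, he⟩ := exists_ne (0 : Q)
  exact ⟨e, e.2, fun h => he (Subtype.ext h)⟩

end Pool.Agent.Helper97.Lander
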