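import Pool.Agent.Helper97.Lander.CaseB1
import Pool.Agent.Helper97.Lander.CaseB2
import Pool.Agent.Helper97.Lander.FibLem

/-!
# Two colours: the two conclusions
-/

set_option autoImplicit false

namespace Pool.Agent.Helper97.Lander

open Finset

variable {G : Type*} [AddCommGroup G] [Fintype G] [DecidableEq G] {p : ℕ} {Q : AddSubgroup G}
  {δ : G →+ G} {D : Finset G} {lam n ν : ℕ}

/-- non-single elements of colour `t` -/
noncomputable def nscol {G : Type*} [AddCommGroup G] [DecidableEq G] (Q : AddSubgroup G)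
    (δ : G →+ G) (D : Finset G) (t : G) : ℕ :=
  (D.filter (fun d => fib Q D d ≠ {d} ∧ δ d = t)).card

theorem col_eq_nscol (S : Sit p Q δ D lam n ν) {M : ℕ}
    (hc : ∀ t ∈ Q, cnt δ D t = lam * (1 + M))
    (hfull : ∀ y, 2 ≤ (fib Q D y).card → (fib Q D y).card = p) {t : G} (ht : t ∈ Q) :
    col δ D t = lam * M + nscol Q δ D t := by
  have h1 := two_cnt S hc hfull ht
  unfold col nscol
  rw [← h1, ← Finset.card_union_of_disjoint]
  · congr 1
    ext d
    simp only [Finset.mem_union, Finset.mem_filter]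
    tauto
  · rw [Finset.disjoint_left]
    intro d hd hd'
    simp only [Finset.mem_filter] at hd hd'
    exact hd'.2.1 hd.2.1

theorem sum_nscol (S : Sit p Q δ D lam n ν)
    (hfull : ∀ y, 2 ≤ (fib Q D y).card → (fib Q D y).card = p) :
    ∑ t ∈ Qf Q, nscol Q δ D t = lam := by
  rw [← two_full S hfull]
  rw [Finset.card_eq_sum_card_fiberwise (f := fun d => δ d) (t := Qf Q)]
  · refine Finset.sum_congr rfl fun t _ => ?_
    unfold nscol
    rw [Finset.filter_filter]
  · intro d _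
    exact b3_mem_Qf.2 (S.hδ d)

omit [DecidableEq G] in
theorem sum_col_shift {e : G} (he : e ∈ Q) (F : G → ℤ) :
    ∑ t ∈ Qf Q, F (t + e) = ∑ t ∈ Qf Q, F t := by
  refine Finset.sum_nbij' (fun t => t + e) (fun t => t - e) ?_ ?_ ?_ ?_ ?_
  · intro t ht
    exact b3_mem_Qf.2 (Q.add_mem (b3_mem_Qf.1 ht) he)
  · intro t ht
    exact b3_mem_Qf.2 (Q.sub_mem (b3_mem_Qf.1 ht) he)
  · intro t _; simp
  · intro t _; simp
  · intro t _; rfl

theorem sum_sq_diff (S : Sit p Q δ D lam n ν) {e : G} (he : e ∈ Q) (he0 : e ≠ 0) :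
    ∑ t ∈ Qf Q, ((col δ D t : ℤ) - col δ D (t + e)) ^ 2 = 2 * n := by
  have h1 := col_sq (n := n) S.hrep S.hk S.hδ S.hsurj
  have h2 := col_shift S.hrep S.hδ S.hsurj he he0
  rw [S.hQ] at h1 h2
  have h1' : (p : ℤ) * ∑ t ∈ Qf Q, (col δ D t : ℤ) ^ 2 = p * n + lam * Fintype.card G := by
    exact_mod_cast h1
  have h2' : (p : ℤ) * ∑ t ∈ Qf Q, (col δ D t : ℤ) * col δ D (t + e)
      = lam * Fintype.card G := by
    exact_mod_cast h2
  have h3 : ∑ t ∈ Qf Q, ((col δ D t : ℤ) - col δ D (t + e)) ^ 2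
      = ∑ t ∈ Qf Q, (col δ D t : ℤ) ^ 2 + ∑ t ∈ Qf Q, (col δ D (t + e) : ℤ) ^ 2
        - 2 * ∑ t ∈ Qf Q, (col δ D t : ℤ) * col δ D (t + e) := by
    rw [Finset.mul_sum, ← Finset.sum_add_distrib, ← Finset.sum_sub_distrib]
    refine Finset.sum_congr rfl fun t _ => ?_
    ring
  have h4 := sum_col_shift he (fun t => (col δ D t : ℤ) ^ 2)
  have hp : (p : ℤ) ≠ 0 := by
    have := S.hp.pos
    positivity
  apply mul_left_cancel₀ hp
  rw [h3, h4]
  linear_combination 2 * h1' - 2 * h2'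

theorem two_s1 (S : Sit p Q δ D lam n ν) (h : TwoColours Q δ D) (hp2 : p ≠ 2)
    (hid : ∀ q ∈ Q, δ q = q) : False := by
  obtain ⟨M, hM, hnM, hpν, hc, hMal, hfull⟩ := two S h hp2
  obtain ⟨e, he, he0⟩ := exists_ne_Q S
  have hns : ∀ t ∈ Q, nscol Q δ D (t + e) = nscol Q δ D t := by
    intro t ht
    unfold nscol
    refine Finset.card_nbij' (fun d => d - e) (fun d => d + e) ?_ ?_ ?_ ?_
    · intro d hd
      simp only [Finset.coe_filter, Set.mem_ofPred_eq] at hd ⊢
      obtain ⟨hd, hf, hδ⟩ := hd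
      have hcard := hfull d (b3_two_le hd hf)
      have e1 : d - e = d + -e := by abel
      refine ⟨?_, ?_, ?_⟩
      · rw [e1]; exact b3_full_mem S.hQ hcard (Q.neg_mem he)
      · intro h'
        rw [e1, b3_fib_add (Q.neg_mem he)] at h'
        have := congrArg Finset.card h'
        rw [hcard, Finset.card_singleton] at this
        exact absurd this S.hp.one_lt.ne'
      · rw [map_sub, hδ, hid e he]; abel
    · intro d hd
      simp only [Finset.coe_filter, Set.mem_ofPred_eq] at hd ⊢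
      obtain ⟨hd, hf, hδ⟩ := hd
      have hcard := hfull d (b3_two_le hd hf)
      refine ⟨?_, ?_, ?_⟩
      · exact b3_full_mem S.hQ hcard he
      · intro h'
        rw [b3_fib_add he] at h'
        have := congrArg Finset.card h'
        rw [hcard, Finset.card_singleton] at this
        exact absurd this S.hp.one_lt.ne'
      · rw [map_add, hδ, hid e he]
    · intro d _; simp
    · intro d _; simp
  have hcol : ∀ t ∈ Qf Q, ((col δ D t : ℤ) - col δ D (t + e)) ^ 2 = 0 := by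
    intro t ht
    have ht := b3_mem_Qf.1 ht
    rw [col_eq_nscol S hc hfull ht, col_eq_nscol S hc hfull (Q.add_mem ht he), hns t ht]
    simp
  have h3 := sum_sq_diff S he he0
  rw [Finset.sum_eq_zero hcol] at h3
  have := S.hn0
  omega

theorem two_s2 (S : Sit p Q δ D lam n ν) (h : TwoColours Q δ D) (hp2 : p ≠ 2) : n ≤ lam ^ 2 := by
  obtain ⟨M, hM, hnM, hpν, hc, hMal, hfull⟩ := two S h hp2
  obtain ⟨e, he, he0⟩ := exists_ne_Q S
  have h3 := sum_sq_diff S he he0
  have h4 : ∑ t ∈ Qf Q, ((col δ D t : ℤ) - col δ D (t + e)) ^ 2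
      ≤ ∑ t ∈ Qf Q, (nscol Q δ D t : ℤ) ^ 2 + ∑ t ∈ Qf Q, (nscol Q δ D (t + e) : ℤ) ^ 2 := by
    rw [← Finset.sum_add_distrib]
    refine Finset.sum_le_sum fun t ht => ?_
    have ht := b3_mem_Qf.1 ht
    rw [col_eq_nscol S hc hfull ht, col_eq_nscol S hc hfull (Q.add_mem ht he)]
    push_cast
    have a1 : (0 : ℤ) ≤ nscol Q δ D t := by positivity
    have a2 : (0 : ℤ) ≤ nscol Q δ D (t + e) := by positivity
    nlinarith [mul_nonneg a1 a2]
  have h5 := sum_col_shift he (fun t => (nscol Q δ D t : ℤ) ^ 2)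
  have h6 : ∑ t ∈ Qf Q, (nscol Q δ D t : ℤ) ^ 2 ≤ (lam : ℤ) ^ 2 := by
    have h7 : ∑ t ∈ Qf Q, (nscol Q δ D t) ^ 2 ≤ (∑ t ∈ Qf Q, nscol Q δ D t) ^ 2 := by
      rw [sq (∑ t ∈ Qf Q, nscol Q δ D t), Finset.sum_mul]
      refine Finset.sum_le_sum fun t ht => ?_
      rw [sq]
      exact Nat.mul_le_mul_left _ (Finset.single_le_sum (f := fun t => nscol Q δ D t)
        (fun _ _ => Nat.zero_le _) ht)
    rw [sum_nscol S hfull] at h7
    exact_mod_cast h7
  have h8 : (n : ℤ) ≤ (lam : ℤ) ^ 2 := by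
    rw [h3, h5] at h4
    linarith
  exact_mod_cast h8

end Pool.Agent.Helper97.Lander
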