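import Pool.Agent.Helper97.Lander.Defs

/-!
# Counting identities
-/

set_option autoImplicit false

namespace Pool.Agent.Helper97.Lander

open Finset

variable {G : Type*} [AddCommGroup G] [Fintype G] [DecidableEq G] {p : ℕ} {Q : AddSubgroup G}
  {δ : G →+ G} {D : Finset G} {lam n ν : ℕ}

omit [Fintype G] in
private theorem ca_pairs (hrep : Reps D lam) (g : G) :
    ((D ×ˢ D).filter (fun x : G × G => x.1 - x.2 = g)).card = if g = 0 then D.card else lam := by
  split_ifs with h
  · subst h
    have h2 : (D ×ˢ D).filter (fun x : G × G => x.1 - x.2 = 0) = D.diag := by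
      ext ⟨a, b⟩
      rw [Finset.mem_filter, Finset.mem_product, Finset.mem_diag, sub_eq_zero]
      constructor
      · rintro ⟨⟨h3, -⟩, h4⟩
        exact ⟨h3, h4⟩
      · rintro ⟨h3, h4⟩
        change a = b at h4
        subst h4
        exact ⟨⟨h3, h3⟩, rfl⟩
    rw [h2, Finset.diag_card]
  · exact hrep g h

omit [DecidableEq G] in
private theorem ca_card (Q : AddSubgroup G) : (Qf Q).card = Nat.card Q := by
  classical
  have h1 : ((Qf Q : Finset G) : Set G) = (Q : Set G) := by
    ext g
    simp [Qf]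
  have h2 : Nat.card Q = ((Q : Set G)).ncard := rfl
  rw [h2, ← h1, Set.ncard_coe_finset]

omit [DecidableEq G] in
private theorem ca_mem {g : G} : g ∈ Qf Q ↔ g ∈ Q := by
  classical
  simp [Qf]

private theorem ca_fib {α : Type*} (S : Finset α) (F : α → G) (g : G) [DecidablePred (· ∈ Q)] :
    ∑ q ∈ Qf Q, (S.filter (fun x => F x = g + q)).card = (S.filter (fun x => F x - g ∈ Q)).card := by
  have hm : Set.MapsTo (fun x => F x - g) (↑(S.filter (fun x => F x - g ∈ Q)) : Set α)
      (↑(Qf Q) : Set G) := by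
    intro x hx
    rw [Finset.mem_coe, Finset.mem_filter] at hx
    exact Finset.mem_coe.2 (ca_mem.2 hx.2)
  rw [Finset.card_eq_sum_card_fiberwise hm]
  refine Finset.sum_congr rfl fun q hq => ?_
  rw [Finset.filter_filter]
  congr 1
  refine Finset.filter_congr fun x _ => ?_
  constructor
  · intro h
    rw [h, add_sub_cancel_left]
    exact ⟨ca_mem.1 hq, rfl⟩
  · rintro ⟨-, h⟩
    rw [← h, add_sub_cancel]

/-- (K2) -/
theorem sum_cnt (hrep : Reps D lam) (hk : D.card = n + lam) (hinj : ∀ g, g + δ g = 0 → g = 0)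
    (y : G) : ∑ d ∈ D, cnt δ D (y - d) =
      lam * D.card + if ∃ d ∈ D, d + δ d = y then n else 0 := by
  classical
  have hswap : ∑ d ∈ D, cnt δ D (y - d) =
      ∑ a ∈ D, ((D ×ˢ D).filter (fun x : G × G => x.1 - x.2 = y - (a + δ a))).card := by
    have h1 : ∀ d, cnt δ D (y - d) = ∑ a ∈ D, ∑ b ∈ D, if a + δ a - b = y - d then 1 else 0 := by
      intro d
      rw [cnt, Finset.card_filter, Finset.sum_product]
    have h2 : ∀ a, ((D ×ˢ D).filter (fun x : G × G => x.1 - x.2 = y - (a + δ a))).card =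
        ∑ d ∈ D, ∑ b ∈ D, if d - b = y - (a + δ a) then 1 else 0 := by
      intro a
      rw [Finset.card_filter, Finset.sum_product]
    rw [Finset.sum_congr rfl fun d _ => h1 d, Finset.sum_congr rfl fun a _ => h2 a,
      Finset.sum_comm]
    refine Finset.sum_congr rfl fun a _ => Finset.sum_congr rfl fun d _ =>
      Finset.sum_congr rfl fun b _ => ?_
    have h3 : a + δ a - b = y - d ↔ d - b = y - (a + δ a) := by
      rw [sub_eq_iff_eq_add, sub_eq_iff_eq_add]
      constructor
      · intro h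
        rw [h]
        abel
      · intro h
        rw [h]
        abel
    by_cases h4 : a + δ a - b = y - d
    · rw [if_pos h4, if_pos (h3.1 h4)]
    · rw [if_neg h4, if_neg fun h => h4 (h3.2 h)]
  rw [hswap]
  have h1 : ∀ a ∈ D, ((D ×ˢ D).filter (fun x : G × G => x.1 - x.2 = y - (a + δ a))).card =
      lam + if a + δ a = y then n else 0 := by
    intro a _
    rw [ca_pairs hrep]
    by_cases h : a + δ a = y
    · rw [if_pos h, if_pos (by rw [h, sub_self]), hk, add_comm]
    · rw [if_neg h, if_neg fun h2 => h (sub_eq_zero.1 h2).symm, add_zero]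
  rw [Finset.sum_congr rfl h1, Finset.sum_add_distrib, Finset.sum_const, smul_eq_mul, mul_comm]
  congr 1
  rw [← Finset.sum_filter, Finset.sum_const, smul_eq_mul]
  by_cases h : ∃ d ∈ D, d + δ d = y
  · rw [if_pos h]
    obtain ⟨d, hd, hdy⟩ := h
    have h2 : D.filter (fun a => a + δ a = y) = {d} := by
      ext a
      rw [Finset.mem_filter, Finset.mem_singleton]
      constructor
      · rintro ⟨-, h3⟩
        have h4 : (a - d) + δ (a - d) = 0 := by
          rw [map_sub, ← sub_eq_zero.2 (h3.trans hdy.symm)]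
          abel
        exact sub_eq_zero.1 (hinj _ h4)
      · rintro rfl
        exact ⟨hd, hdy⟩
    rw [h2, Finset.card_singleton, one_mul]
  · rw [if_neg h]
    have h2 : D.filter (fun a => a + δ a = y) = ∅ := by
      rw [Finset.filter_eq_empty_iff]
      intro a ha h3
      exact h ⟨a, ha, h3⟩
    rw [h2, Finset.card_empty, zero_mul]

private theorem ca_coset (hrep : Reps D lam) (hδ : ∀ g, δ g ∈ Q) (g : G) :
    ∑ q ∈ Qf Q, cnt δ D (g + q) = ∑ q ∈ Qf Q, if g + q = 0 then D.card else lam := by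
  classical
  have h1 := ca_fib (Q := Q) (D ×ˢ D) (fun x : G × G => x.1 + δ x.1 - x.2) g
  have h2 := ca_fib (Q := Q) (D ×ˢ D) (fun x : G × G => x.1 - x.2) g
  have h3 : ((D ×ˢ D).filter (fun x : G × G => x.1 + δ x.1 - x.2 - g ∈ Q)).card =
      ((D ×ˢ D).filter (fun x : G × G => x.1 - x.2 - g ∈ Q)).card := by
    congr 1
    refine Finset.filter_congr fun x _ => ?_
    have h4 : x.1 + δ x.1 - x.2 - g = x.1 - x.2 - g + δ x.1 := by abel
    rw [h4]
    exact AddSubgroup.add_mem_cancel_right Q (hδ x.1)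
  rw [Finset.sum_congr rfl fun q _ => (ca_pairs hrep (g + q)).symm]
  rw [h2, ← h3, ← h1]
  rfl

/-- (K3), outside `Q` -/
theorem sum_coset_out (hrep : Reps D lam) (hδ : ∀ g, δ g ∈ Q) {g : G} (hg : g ∉ Q) :
    ∑ q ∈ Qf Q, cnt δ D (g + q) = Nat.card Q * lam := by
  classical
  rw [ca_coset hrep hδ g]
  have h1 : ∀ q ∈ Qf Q, (if g + q = 0 then D.card else lam) = lam := by
    intro q hq
    rw [if_neg]
    intro h
    apply hg
    have h2 : g = -q := eq_neg_of_add_eq_zero_left h
    rw [h2]
    exact Q.neg_mem (ca_mem.1 hq)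
  rw [Finset.sum_congr rfl h1, Finset.sum_const, ca_card, smul_eq_mul]

/-- (K3), inside `Q` -/
theorem sum_coset_in (hrep : Reps D lam) (hk : D.card = n + lam) (hδ : ∀ g, δ g ∈ Q) {g : G}
    (hg : g ∈ Q) : ∑ q ∈ Qf Q, cnt δ D (g + q) = Nat.card Q * lam + n := by
  classical
  rw [ca_coset hrep hδ g]
  have h1 : ∀ q ∈ Qf Q, (if g + q = 0 then D.card else lam) = lam + if q = -g then n else 0 := by
    intro q _
    by_cases h : q = -g
    · rw [if_pos h, if_pos (by rw [h, add_neg_cancel]), hk, add_comm]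
    · rw [if_neg h, if_neg fun h2 => h (eq_neg_of_add_eq_zero_right h2), add_zero]
  rw [Finset.sum_congr rfl h1, Finset.sum_add_distrib, Finset.sum_const, ca_card, smul_eq_mul,
    Finset.sum_ite_eq', if_pos (ca_mem.2 (Q.neg_mem hg))]

theorem card_sq (hrep : Reps D lam) (hk : D.card = n + lam) :
    D.card ^ 2 = n + lam * Fintype.card G := by
  classical
  have hm : Set.MapsTo (fun x : G × G => x.1 - x.2) (↑(D ×ˢ D) : Set (G × G))
      (↑(Finset.univ : Finset G) : Set G) := fun x _ => Finset.mem_coe.2 (Finset.mem_univ _)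
  have h1 := Finset.card_eq_sum_card_fiberwise hm
  rw [Finset.card_product, ← pow_two] at h1
  rw [h1]
  have h2 : ∀ g ∈ (Finset.univ : Finset G),
      ((D ×ˢ D).filter (fun x : G × G => x.1 - x.2 = g)).card = lam + if g = 0 then n else 0 := by
    intro g _
    rw [ca_pairs hrep g]
    by_cases h : g = 0
    · rw [if_pos h, if_pos h, hk, add_comm]
    · rw [if_neg h, if_neg h, add_zero]
  rw [Finset.sum_congr rfl h2, Finset.sum_add_distrib, Finset.sum_const, Finset.card_univ,
    smul_eq_mul, Finset.sum_ite_eq', if_pos (Finset.mem_univ _)]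
  ring

end Pool.Agent.Helper97.Lander
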