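import Pool.Agent.Helper97.Lander.Defs

/-!
# `p` and `(x - 1) ^ phi(p ^ (s+1))` divide each other if `x` is a root of the cyclotomic polynomial
-/

set_option autoImplicit false

namespace Pool.Agent.Helper97.Lander

open Polynomial in
/-- In a domain with a primitive `p ^ (s+1)`-th root of unity, `p` is associated to
`(zeta - 1) ^ ((p-1) p^s)`. -/
private theorem cyc_aux {R : Type*} [CommRing R] [IsDomain R] {p : ℕ} (hp : p.Prime) (s : ℕ)
    (z : R) (hz : IsPrimitiveRoot z (p ^ (s + 1))) :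
    Associated (p : R) ((z - 1) ^ ((p - 1) * p ^ s)) := by
  have : Fact p.Prime := ⟨hp⟩
  have hpos : 0 < p ^ (s + 1) := pow_pos hp.pos _
  have h1 : (p : R) = ∏ μ ∈ primitiveRoots (p ^ (s + 1)) R, (1 - μ) := by
    have h2 := congrArg (Polynomial.eval (1 : R)) (cyclotomic_eq_prod_X_sub_primitiveRoots hz)
    rw [eval_one_cyclotomic_prime_pow, Polynomial.eval_prod] at h2
    simpa using h2
  have h3 : (primitiveRoots (p ^ (s + 1)) R).card = (p - 1) * p ^ s := by
    rw [hz.card_primitiveRoots, Nat.totient_prime_pow_succ hp, mul_comm]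
  rw [h1, ← h3, ← Finset.prod_const]
  refine Associated.prod _ _ _ ?_
  intro μ hμ
  rw [mem_primitiveRoots hpos] at hμ
  obtain ⟨i, hi, hic, rfl⟩ := (hz.isPrimitiveRoot_iff).1 hμ
  have h4 := hz.associated_sub_one_pow_sub_one_of_coprime hic
  have h5 : Associated (1 - z ^ i) (z ^ i - 1) := by
    refine ⟨-1, ?_⟩
    push_cast
    ring
  exact h5.trans h4.symm

open Polynomial in
/-- In any commutative ring: if `1 + x^(p^s) + ... + x^(p^s (p-1)) = 0` then `p` and
`(x - 1) ^ ((p - 1) * p ^ s)` divide each other. (Proof: it suffices to do this in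
`ℤ[X] / (cyclotomic (p^(s+1)))`, a domain, where `p` is the product of the `1 - mu` over the
primitive roots `mu` and all `1 - mu` are associated.) -/
theorem cyc_dvd {p : ℕ} (hp : p.Prime) (s : ℕ) {C : Type*} [CommRing C] (x : C)
    (hx : ∑ i ∈ Finset.range p, x ^ (p ^ s * i) = 0) :
    (x - 1) ^ ((p - 1) * p ^ s) ∣ (p : C) ∧ (p : C) ∣ (x - 1) ^ ((p - 1) * p ^ s) := by
  have hpos : 0 < p ^ (s + 1) := pow_pos hp.pos _
  set Φ : ℤ[X] := cyclotomic (p ^ (s + 1)) ℤ with hΦ
  have hirr : Irreducible Φ := cyclotomic.irreducible hpos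
  have : IsDomain (AdjoinRoot Φ) := AdjoinRoot.isDomain_of_prime hirr.prime
  have hdeg : Φ.degree ≠ 0 := by
    rw [hΦ, degree_cyclotomic]
    have := Nat.totient_pos.2 hpos
    exact_mod_cast this.ne'
  have hinj : Function.Injective (AdjoinRoot.of Φ) := AdjoinRoot.of.injective_of_degree_ne_zero hdeg
  have : CharZero (AdjoinRoot Φ) := charZero_of_injective_ringHom hinj
  have hroot : (cyclotomic (p ^ (s + 1)) (AdjoinRoot Φ)).IsRoot (AdjoinRoot.root Φ) := by
    have h1 := AdjoinRoot.isRoot_root Φ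
    rw [hΦ, map_cyclotomic] at h1
    exact h1
  have hz : IsPrimitiveRoot (AdjoinRoot.root Φ) (p ^ (s + 1)) :=
    (isRoot_cyclotomic_iff_charZero hpos).1 hroot
  have hass := cyc_aux hp s (AdjoinRoot.root Φ) hz
  have hev : Φ.eval₂ (Int.castRingHom C) x = 0 := by
    rw [hΦ, cyclotomic_prime_pow_eq_geom_sum hp, eval₂_finsetSum]
    simpa [← pow_mul] using hx
  let f : AdjoinRoot Φ →+* C := AdjoinRoot.lift (Int.castRingHom C) x hev
  have hfx : f (AdjoinRoot.root Φ) = x := AdjoinRoot.lift_root hev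
  have hd1 := map_dvd f hass.dvd'
  have hd2 := map_dvd f hass.dvd
  rw [map_pow, map_sub, map_one, hfx, map_natCast] at hd1 hd2
  exact ⟨hd1, hd2⟩

end Pool.Agent.Helper97.Lander
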