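import Mathlib

/-!
# Lander's conjecture: difference sets, colours and the counting function of `sigma(D) - D`

See /team-store/lander_h97.md for the proof on paper.
-/

set_option autoImplicit false

namespace Pool.Agent.Helper97.Lander

open Finset

variable {G : Type*} [AddCommGroup G] [Fintype G] [DecidableEq G]

/-- Every nonzero element of `G` is a difference of two elements of `D` in exactly `lam` ways. -/
def Reps {G : Type*} [AddCommGroup G] [DecidableEq G] (D : Finset G) (lam : ℕ) : Prop :=
  ∀ g : G, g ≠ 0 → ((D ×ˢ D).filter (fun x => x.1 - x.2 = g)).card = lam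

/-- The number of pairs `(d, d')` of elements of `D` with `sigma d - d' = g`, `sigma = id + delta`. -/
def cnt {G : Type*} [AddCommGroup G] [DecidableEq G] (δ : G →+ G) (D : Finset G) (g : G) : ℕ :=
  ((D ×ˢ D).filter (fun x => x.1 + δ x.1 - x.2 = g)).card

/-- The number of elements of `D` of colour `e`. -/
def col {G : Type*} [AddCommGroup G] [DecidableEq G] (δ : G →+ G) (D : Finset G) (e : G) : ℕ :=
  (D.filter (fun d => δ d = e)).card

open Classical in
/-- The elements of the subgroup `Q`, as a finset. -/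
noncomputable def Qf {G : Type*} [AddCommGroup G] [Fintype G] (Q : AddSubgroup G) : Finset G :=
  Finset.univ.filter (fun g => g ∈ Q)

open Classical in
/-- The part of `D` in the coset `y + Q`. -/
noncomputable def fib {G : Type*} [AddCommGroup G] (Q : AddSubgroup G) (D : Finset G) (y : G) :
    Finset G :=
  D.filter (fun d => d - y ∈ Q)

/-- The class of `g` (outside `Q`) is aligned. -/
def Al {G : Type*} [AddCommGroup G] [DecidableEq G] (Q : AddSubgroup G) (δ : G →+ G) (D : Finset G)
    (lam : ℕ) (g : G) : Prop :=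
  ∃ q ∈ Q, cnt δ D (g + q) ≠ lam

open Classical in
/-- The number of `d'` in `D`, not in the coset of `d`, with `d - d'` aligned. -/
noncomputable def Mal {G : Type*} [AddCommGroup G] [DecidableEq G] (Q : AddSubgroup G) (δ : G →+ G)
    (D : Finset G) (lam : ℕ) (d : G) : ℕ :=
  (D.filter (fun d' => d - d' ∉ Q ∧ Al Q δ D lam (d - d'))).card

/-- The situation: `Q` of prime order `p`, a surjection `delta : G → Q` with `id + delta` injective,
a difference set `D` with `k = n + lam`, `p ∣ lam`, `p * lam ≤ p ^ nu`, `p ^ nu ∣ n`, and the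
congruences (K1). -/
structure Sit (p : ℕ) (Q : AddSubgroup G) (δ : G →+ G) (D : Finset G) (lam n ν : ℕ) : Prop where
  hp : p.Prime
  hQ : Nat.card Q = p
  hδ : ∀ g, δ g ∈ Q
  hsurj : ∀ q ∈ Q, ∃ g, δ g = q
  hinj : ∀ g, g + δ g = 0 → g = 0
  hrep : Reps D lam
  hk : D.card = n + lam
  hlam : p ∣ lam
  hlam0 : 0 < lam
  hn0 : 0 < n
  hle : p * lam ≤ p ^ ν
  hn : p ^ ν ∣ n
  hK : ∀ g, ∀ q ∈ Q, cnt δ D (g + q) ≡ cnt δ D g [MOD p ^ ν]

/-- All single elements (alone in their coset of `Q`) have one colour. -/
def OneColour {G : Type*} [AddCommGroup G] (Q : AddSubgroup G) (δ : G →+ G) (D : Finset G) : Prop :=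
  ∃ e ∈ Q, ∀ d ∈ D, fib Q D d = {d} → δ d = e

/-- There are two single elements of different colours. -/
def TwoColours {G : Type*} [AddCommGroup G] (Q : AddSubgroup G) (δ : G →+ G) (D : Finset G) : Prop :=
  ∃ d ∈ D, ∃ d' ∈ D, fib Q D d = {d} ∧ fib Q D d' = {d'} ∧ δ d ≠ δ d'

end Pool.Agent.Helper97.Lander
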