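import Pool.Agent.Helper97.Lander.CountA

/-!
# The counts seen from a coset with one element and from a coset with several elements
-/

set_option autoImplicit false

namespace Pool.Agent.Helper97.Lander

open Finset

variable {G : Type*} [AddCommGroup G] [Fintype G] [DecidableEq G] {p : ℕ} {Q : AddSubgroup G}
  {δ : G →+ G} {D : Finset G} {lam n ν : ℕ}

omit [DecidableEq G] in
private theorem memQf {Q : AddSubgroup G} {g : G} : g ∈ Qf Q ↔ g ∈ Q := by
  unfold Qf
  simp

omit [DecidableEq G] in
private theorem cardQf (Q : AddSubgroup G) : (Qf Q).card = Nat.card Q :=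
  (Nat.subtype_card (Qf Q) (fun _ => memQf)).symm

omit [Fintype G] [DecidableEq G] in
private theorem memfib {Q : AddSubgroup G} {D : Finset G} {y d : G} :
    d ∈ fib Q D y ↔ d ∈ D ∧ d - y ∈ Q := by
  unfold fib
  simp

theorem dich (S : Sit p Q δ D lam n ν) {g : G} (hg : g ∉ Q) :
    (∀ q ∈ Q, cnt δ D (g + q) = lam) ∨
      (p ^ ν = p * lam ∧ ∃ q0 ∈ Q, ∀ q ∈ Q, cnt δ D (g + q) = if q = q0 then p * lam else 0) := by
  have hsum := sum_coset_out (lam := lam) S.hrep S.hδ hg
  rw [S.hQ] at hsum
  by_cases h : ∃ q ∈ Q, p ^ ν ≤ cnt δ D (g + q)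
  · right
    obtain ⟨q0, hq0, h1⟩ := h
    have hq0' := memQf.2 hq0
    rw [← add_sum_erase _ _ hq0'] at hsum
    have hle := S.hle
    have h2 : cnt δ D (g + q0) = p * lam := by omega
    have h3 : ∑ q ∈ (Qf Q).erase q0, cnt δ D (g + q) = 0 := by omega
    refine ⟨by omega, q0, hq0, fun q hq => ?_⟩
    by_cases hqq : q = q0
    · rw [if_pos hqq, hqq, h2]
    · rw [if_neg hqq]
      exact (sum_eq_zero_iff.1 h3) q (mem_erase.2 ⟨hqq, memQf.2 hq⟩)
  · left
    push Not at h
    have h0 := h 0 Q.zero_mem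
    rw [add_zero] at h0
    have h1 : ∀ q ∈ Q, cnt δ D (g + q) = cnt δ D g := fun q hq =>
      Nat.ModEq.eq_of_lt_of_lt (S.hK g q hq) (h q hq) h0
    rw [sum_congr rfl (fun q hq => h1 q (memQf.1 hq)), sum_const, cardQf, S.hQ,
      smul_eq_mul] at hsum
    have h2 : cnt δ D g = lam := Nat.eq_of_mul_eq_mul_left S.hp.pos hsum
    intro q hq
    rw [h1 q hq, h2]

/-- in an aligned class only `sigma d - d'` is taken -/
theorem al_pair (S : Sit p Q δ D lam n ν) {d d' : G} (hd : d ∈ D) (hd' : d' ∈ D)
    (hg : d - d' ∉ Q) (hal : Al Q δ D lam (d - d')) :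
    p ^ ν = p * lam ∧ ∀ q ∈ Q, cnt δ D (d - d' + q) = if q = δ d then p * lam else 0 := by
  rcases dich S hg with h | ⟨h1, q0, hq0, h2⟩
  · obtain ⟨q, hq, hne⟩ := hal
    exact absurd (h q hq) hne
  · refine ⟨h1, ?_⟩
    have h3 : 0 < cnt δ D (d - d' + δ d) := by
      unfold cnt
      rw [card_pos]
      refine ⟨(d, d'), mem_filter.2 ⟨mem_product.2 ⟨hd, hd'⟩, ?_⟩⟩
      show d + δ d - d' = d - d' + δ d
      abel
    rw [h2 (δ d) (S.hδ d)] at h3
    have h4 : δ d = q0 := by
      by_contra hne
      rw [if_neg hne] at h3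
      exact lt_irrefl _ h3
    rw [h4]
    exact h2

theorem single (S : Sit p Q δ D lam n ν) {d : G} (hd : d ∈ D) (h1 : fib Q D d = {d}) :
    (Mal Q δ D lam d ≠ 0 → p ^ ν = p * lam) ∧ ∀ t ∈ Q,
      cnt δ D t + (if t = δ d then p * lam * Mal Q δ D lam d else 0)
        = lam * (1 + Mal Q δ D lam d) + (if t = δ d then n else 0) := by
  classical
  have huniq : ∀ d' ∈ D, d' - d ∈ Q → d' = d := by
    intro d' hd' hq
    have : d' ∈ fib Q D d := memfib.2 ⟨hd', hq⟩
    rw [h1] at this
    exact mem_singleton.1 this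
  set A : Finset G := D.filter (fun d' => d - d' ∉ Q ∧ Al Q δ D lam (d - d')) with hA
  have hM : Mal Q δ D lam d = A.card := by
    unfold Mal
    rw [hA]
  rw [hM]
  constructor
  · intro hne
    obtain ⟨d', hd'⟩ := card_pos.1 (Nat.pos_of_ne_zero hne)
    rw [hA, mem_filter] at hd'
    exact (al_pair S hd hd'.1 hd'.2.1 hd'.2.2).1
  · intro t ht
    have hK2 := sum_cnt S.hrep S.hk S.hinj (d + t)
    have hex : (∃ d'' ∈ D, d'' + δ d'' = d + t) ↔ t = δ d := by
      constructor
      · rintro ⟨d'', hd'', he⟩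
        have h2 : d'' = d := by
          apply huniq d'' hd''
          have : d'' - d = t - δ d'' := by
            rw [sub_eq_sub_iff_add_eq_add, he, add_comm]
          rw [this]
          exact Q.sub_mem ht (S.hδ d'')
        rw [h2] at he
        exact (add_left_cancel he).symm
      · intro he
        exact ⟨d, hd, by rw [he]⟩
    have hif : (if ∃ d'' ∈ D, d'' + δ d'' = d + t then n else 0) = if t = δ d then n else 0 := by
      by_cases he : t = δ d
      · rw [if_pos (hex.2 he), if_pos he]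
      · rw [if_neg (fun h => he (hex.1 h)), if_neg he]
    rw [hif, ← add_sum_erase _ _ hd] at hK2
    have h3 : d + t - d = t := by abel
    rw [h3] at hK2
    have hAsub : A ⊆ D.erase d := by
      intro x hx
      rw [hA, mem_filter] at hx
      refine mem_erase.2 ⟨?_, hx.1⟩
      intro hxd
      rw [hxd, sub_self] at hx
      exact hx.2.1 Q.zero_mem
    rw [← sum_sdiff hAsub] at hK2
    have h4 : ∑ x ∈ A, cnt δ D (d + t - x) = A.card * (if t = δ d then p * lam else 0) := by
      rw [← smul_eq_mul, ← sum_const]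
      refine sum_congr rfl fun x hx => ?_
      rw [hA, mem_filter] at hx
      have := (al_pair S hd hx.1 hx.2.1 hx.2.2).2 t ht
      rw [← this]
      congr 1
      abel
    have h5 : ∑ x ∈ D.erase d \ A, cnt δ D (d + t - x) = (D.erase d \ A).card * lam := by
      rw [← smul_eq_mul, ← sum_const]
      refine sum_congr rfl fun x hx => ?_
      rw [mem_sdiff, mem_erase] at hx
      have hxQ : d - x ∉ Q := by
        intro hq
        apply hx.1.1
        apply huniq x hx.1.2
        rw [← neg_sub]
        exact Q.neg_mem hq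
      have hnal : ¬ Al Q δ D lam (d - x) := by
        intro hal
        apply hx.2
        rw [hA, mem_filter]
        exact ⟨hx.1.2, hxQ, hal⟩
      unfold Al at hnal
      push Not at hnal
      have := hnal t ht
      rw [← this]
      congr 1
      abel
    rw [h4, h5] at hK2
    have h6 : (D.erase d \ A).card + A.card + 1 = D.card := by
      rw [card_sdiff_add_card_eq_card hAsub, card_erase_of_mem hd]
      have : 0 < D.card := card_pos.2 ⟨d, hd⟩
      omega
    rw [← h6] at hK2
    have h7 : lam * ((D.erase d \ A).card + A.card + 1) =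
        (D.erase d \ A).card * lam + lam * (1 + A.card) := by ring
    rw [h7] at hK2
    have h8 : A.card * (if t = δ d then p * lam else 0) =
        if t = δ d then p * lam * A.card else 0 := by
      split_ifs
      · ring
      · ring
    rw [h8] at hK2
    omega

theorem multi_noal (S : Sit p Q δ D lam n ν) {y d' : G} (h2 : 2 ≤ (fib Q D y).card) (hd' : d' ∈ D)
    (hy : y - d' ∉ Q) : ¬ Al Q δ D lam (y - d') := by
  rintro ⟨q, hq, hne⟩
  obtain ⟨d1, h1, d2, h3, h12⟩ := one_lt_card.1 (by omega : 1 < (fib Q D y).card)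
  have key : ∀ x ∈ fib Q D y, x - d' ∉ Q ∧ Al Q δ D lam (x - d') := by
    intro x hx
    have hx2 := (memfib.1 hx).2
    constructor
    · intro h
      apply hy
      have : y - d' = (x - d') - (x - y) := by abel
      rw [this]
      exact Q.sub_mem h hx2
    · refine ⟨q - (x - y), Q.sub_mem hq hx2, ?_⟩
      have : x - d' + (q - (x - y)) = y - d' + q := by abel
      rw [this]
      exact hne
  have a1 := al_pair S (memfib.1 h1).1 hd' (key d1 h1).1 (key d1 h1).2
  have a2 := al_pair S (memfib.1 h3).1 hd' (key d2 h3).1 (key d2 h3).2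
  have b1 := a1.2 (δ d1) (S.hδ d1)
  rw [if_pos rfl] at b1
  have hq2 : d1 - d2 + δ d1 ∈ Q := by
    apply Q.add_mem _ (S.hδ d1)
    have : d1 - d2 = (d1 - y) - (d2 - y) := by abel
    rw [this]
    exact Q.sub_mem (memfib.1 h1).2 (memfib.1 h3).2
  have b2 := a2.2 _ hq2
  have e1 : d2 - d' + (d1 - d2 + δ d1) = d1 - d' + δ d1 := by abel
  rw [e1, b1] at b2
  have hpos : 0 < p * lam := Nat.mul_pos S.hp.pos S.hlam0
  have e2 : d1 - d2 + δ d1 = δ d2 := by
    by_contra hne2
    rw [if_neg hne2] at b2
    omega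
  apply h12
  have e3 : d1 - d2 + δ (d1 - d2) = 0 := by
    rw [map_sub, ← e2]
    abel
  exact sub_eq_zero.1 (S.hinj _ e3)

theorem multi (S : Sit p Q δ D lam n ν) {y : G} (h2 : 2 ≤ (fib Q D y).card) :
    ∑ d ∈ fib Q D y, cnt δ D (y - d) =
      lam * (fib Q D y).card + if ∃ d ∈ D, d + δ d = y then n else 0 := by
  classical
  have hK2 := sum_cnt S.hrep S.hk S.hinj y
  have hsub : fib Q D y ⊆ D := fun x hx => (memfib.1 hx).1
  rw [← sum_sdiff hsub] at hK2
  have h5 : ∑ x ∈ D \ fib Q D y, cnt δ D (y - x) = (D \ fib Q D y).card * lam := by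
    rw [← smul_eq_mul, ← sum_const]
    refine sum_congr rfl fun x hx => ?_
    rw [mem_sdiff] at hx
    have hxQ : y - x ∉ Q := by
      intro hq
      apply hx.2
      refine memfib.2 ⟨hx.1, ?_⟩
      rw [← neg_sub]
      exact Q.neg_mem hq
    have hnal := multi_noal S h2 hx.1 hxQ
    unfold Al at hnal
    push Not at hnal
    have := hnal 0 Q.zero_mem
    rw [add_zero] at this
    exact this
  have h6 : (D \ fib Q D y).card + (fib Q D y).card = D.card :=
    card_sdiff_add_card_eq_card hsub
  rw [h5, ← h6] at hK2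
  have h7 : lam * ((D \ fib Q D y).card + (fib Q D y).card) =
      (D \ fib Q D y).card * lam + lam * (fib Q D y).card := by ring
  rw [h7] at hK2
  omega

end Pool.Agent.Helper97.Lander
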