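import Pool.Agent.Helper97.Lander.Defs

/-!
# The colour map and the subgroup of order `p` in `ZMod (p ^ (s+1)) × H`
-/

set_option autoImplicit false

namespace Pool.Agent.Helper97.Lander

/-- The colour map `(r, h) ↦ (p^s r, 0)`. -/
def dlt (p s : ℕ) (H : Type*) [AddCommGroup H] : ZMod (p ^ (s + 1)) × H →+ ZMod (p ^ (s + 1)) × H :=
  ((AddMonoidHom.mulLeft ((p ^ s : ℕ) : ZMod (p ^ (s + 1)))).comp (AddMonoidHom.fst _ H)).prod 0

/-- The subgroup of order `p`. -/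
def Qs (p s : ℕ) (H : Type*) [AddCommGroup H] : AddSubgroup (ZMod (p ^ (s + 1)) × H) :=
  AddSubgroup.zmultiples (((p ^ s : ℕ) : ZMod (p ^ (s + 1))), (0 : H))

variable {H : Type*} [AddCommGroup H] {p s : ℕ}

lemma dlt_apply (g : ZMod (p ^ (s + 1)) × H) :
    dlt p s H g = (((p ^ s : ℕ) : ZMod (p ^ (s + 1))) * g.1, 0) := rfl

lemma mem_Qs {g : ZMod (p ^ (s + 1)) × H} (hp : p.Prime) :
    g ∈ Qs p s H ↔ ∃ j : ℕ, g = (((j * p ^ s : ℕ) : ZMod (p ^ (s + 1))), 0) := by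
  have : NeZero p := ⟨hp.ne_zero⟩
  rw [Qs, AddSubgroup.mem_zmultiples_iff]
  constructor
  · rintro ⟨k, rfl⟩
    refine ⟨(k : ZMod (p ^ (s + 1))).val, ?_⟩
    simp
  · rintro ⟨j, rfl⟩
    refine ⟨j, ?_⟩
    simp

lemma Qs_card (hp : p.Prime) : Nat.card (Qs p s H) = p := by
  have : NeZero p := ⟨hp.ne_zero⟩
  rw [Qs, Nat.card_zmultiples]
  have h1 : ((p ^ s : ℕ) : ZMod (p ^ (s + 1))) = (p ^ s : ℕ) • (1 : ZMod (p ^ (s + 1))) := by simp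
  rw [Prod.addOrderOf_mk, addOrderOf_zero, Nat.lcm_one_right, h1, addOrderOf_nsmul, ZMod.addOrderOf_one]
  have h2 : (p ^ (s + 1)).gcd (p ^ s) = p ^ s := Nat.gcd_eq_right (pow_dvd_pow p (Nat.le_succ s))
  rw [h2, pow_succ, Nat.mul_div_cancel_left _ (pow_pos hp.pos s)]

lemma dlt_mem (hp : p.Prime) (g : ZMod (p ^ (s + 1)) × H) : dlt p s H g ∈ Qs p s H := by
  have : NeZero p := ⟨hp.ne_zero⟩
  rw [mem_Qs hp, dlt_apply]
  refine ⟨g.1.val, ?_⟩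
  simp [mul_comm]

lemma dlt_surj (hp : p.Prime) : ∀ q ∈ Qs p s H, ∃ g, dlt p s H g = q := by
  intro q hq
  obtain ⟨j, rfl⟩ := (mem_Qs hp).1 hq
  refine ⟨((j : ZMod (p ^ (s + 1))), 0), ?_⟩
  rw [dlt_apply]
  simp [mul_comm]

end Pool.Agent.Helper97.Lander
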