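import Pool.Agent.Helper97.Lander.CaseB1
import Pool.Agent.Helper97.Lander.CaseB2
import Pool.Agent.Helper97.Lander.FibLem

/-!
# `lambda = p`, `n = p ^ 2`
-/

set_option autoImplicit false

namespace Pool.Agent.Helper97.Lander

open Finset

variable {G : Type*} [AddCommGroup G] [Fintype G] [DecidableEq G] {p : ℕ} {Q : AddSubgroup G}
  {δ : G →+ G} {D : Finset G} {lam n ν : ℕ}

/-- there is `a` outside `Q` such that the single elements are stable under `d ↦ d + delta d - a` -/
theorem orbit_a (S : Sit p Q δ D lam n ν) (h : TwoColours Q δ D) (hp2 : p ≠ 2)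
    (hlam : lam = p) (hn : n = p ^ 2) :
    ∃ a : G, ∀ d ∈ D, fib Q D d = {d} →
      d + δ d - a ∈ D ∧ fib Q D (d + δ d - a) = {d + δ d - a} := by
  classical
  obtain ⟨M, hM, hnM, hpν, hc, hMal, hfull⟩ := two S h hp2
  have hppos := S.hp.pos
  have hM1 : M = 1 := by
    have h1 : p ^ 2 * M = p ^ 2 * 1 := by
      rw [mul_one]
      calc p ^ 2 * M = p * lam * M := by rw [hlam]; ring
        _ = p ^ 2 := by rw [← hnM, hn]
    exact Nat.eq_of_mul_eq_mul_left (by positivity) h1
  subst hM1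
  -- the number of single elements
  have hns := two_full S hfull
  have hsingle : (D.filter (fun d => fib Q D d = {d})).card = p ^ 2 := by
    have h1 := Finset.card_filter_add_card_filter_not (s := D) (fun d => fib Q D d = {d})
    have h2 := S.hk
    have h3 : (D.filter (fun d => ¬ fib Q D d = {d})).card = lam := hns
    omega
  obtain ⟨d0, hd0, d0', hd0', hs0, hs0', hne⟩ := h
  have hMal0 := hMal d0 hd0 hs0
  have hpos : 0 < Mal Q δ D lam d0 := by rw [hMal0]; exact Nat.one_pos
  unfold Mal at hpos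
  obtain ⟨e0, he0⟩ := Finset.card_pos.1 hpos
  rw [Finset.mem_filter] at he0
  obtain ⟨heD, heQ, heA⟩ := he0
  obtain ⟨-, hcnt⟩ := al_pair S hd0 heD heQ heA
  have hcnt0 := hcnt (δ d0) (S.hδ d0)
  rw [if_pos rfl] at hcnt0
  set a : G := d0 - e0 + δ d0 with ha
  have haQ : a ∉ Q := by
    intro h'
    apply heQ
    have : d0 - e0 = a - δ d0 := by rw [ha]; abel
    rw [this]
    exact Q.sub_mem h' (S.hδ d0)
  have hplam : p * lam ≠ lam := by
    have := S.hp.one_lt
    rw [hlam]
    nlinarith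
  -- every representation of `a`
  have hrepr : ∀ d ∈ D, ∀ d' ∈ D, d + δ d - d' = a → ∀ d'' ∈ D, d'' - d' ∈ Q →
      d - d'' ∉ Q ∧ Al Q δ D lam (d - d'') := by
    intro d hd d' hd' hda d'' hd'' hq
    constructor
    · intro h'
      apply haQ
      have : a = (d - d'') + (d'' - d') + δ d := by rw [← hda]; abel
      rw [this]
      exact Q.add_mem (Q.add_mem h' hq) (S.hδ d)
    · refine ⟨δ d + (d'' - d'), Q.add_mem (S.hδ d) hq, ?_⟩
      have : d - d'' + (δ d + (d'' - d')) = a := by rw [← hda]; abel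
      rw [this, hcnt0]
      exact hplam
  have hfirst : ∀ d ∈ D, ∀ d' ∈ D, d + δ d - d' = a → fib Q D d = {d} := by
    intro d hd d' hd' hda
    by_contra hns'
    have h2 := b3_two_le hd hns'
    obtain ⟨h3, h4⟩ := hrepr d hd d' hd' hda d' hd' (by simp [Q.zero_mem])
    exact multi_noal S h2 hd' h3 h4
  -- the set of first coordinates
  have himg : ((D ×ˢ D).filter (fun x => x.1 + δ x.1 - x.2 = a)).image Prod.fst
      = D.filter (fun d => fib Q D d = {d}) := by
    apply Finset.eq_of_subset_of_card_le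
    · intro d hd
      rw [Finset.mem_image] at hd
      obtain ⟨⟨d1, d2⟩, h1, h2⟩ := hd
      rw [Finset.mem_filter, Finset.mem_product] at h1
      simp only at h1 h2
      subst h2
      rw [Finset.mem_filter]
      exact ⟨h1.1.1, hfirst d1 h1.1.1 d2 h1.1.2 h1.2⟩
    · rw [Finset.card_image_of_injOn, hsingle]
      · have : ((D ×ˢ D).filter (fun x => x.1 + δ x.1 - x.2 = a)).card = p * lam := hcnt0
        rw [this, hlam, sq]
      · intro x hx y hy hxy
        simp only [Finset.coe_filter, Set.mem_ofPred_eq] at hx hy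
        obtain ⟨x1, x2⟩ := x
        obtain ⟨y1, y2⟩ := y
        simp only at hx hy hxy
        subst hxy
        have h1 := hx.2
        have h2 := hy.2
        have : x2 = y2 := by
          have h3 : x1 + δ x1 - x2 = x1 + δ x1 - y2 := by rw [h1, h2]
          exact sub_right_injective h3
        rw [this]
  refine ⟨a, fun d hd hs => ?_⟩
  have hmem : d ∈ ((D ×ˢ D).filter (fun x => x.1 + δ x.1 - x.2 = a)).image Prod.fst := by
    rw [himg, Finset.mem_filter]
    exact ⟨hd, hs⟩
  rw [Finset.mem_image] at hmem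
  obtain ⟨⟨d1, d2⟩, h1, h2⟩ := hmem
  rw [Finset.mem_filter, Finset.mem_product] at h1
  simp only at h1 h2
  subst h2
  obtain ⟨⟨hd1, hd2⟩, hda⟩ := h1
  have hd2' : d1 + δ d1 - a = d2 := by rw [← hda]; abel
  rw [hd2']
  refine ⟨hd2, ?_⟩
  by_contra hns'
  have h2 := b3_two_le hd2 hns'
  have hM1 := hMal d1 hd1 hs
  have hsub : fib Q D d2 ⊆ D.filter (fun d' => d1 - d' ∉ Q ∧ Al Q δ D lam (d1 - d')) := by
    intro d'' hd''
    rw [b3_mem_fib] at hd''
    rw [Finset.mem_filter]
    exact ⟨hd''.1, hrepr d1 hd1 d2 hd2 hda d'' hd''.1 hd''.2⟩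
  have h3 := Finset.card_le_card hsub
  have h4 : (D.filter (fun d' => d1 - d' ∉ Q ∧ Al Q δ D lam (d1 - d'))).card
      = Mal Q δ D lam d1 := by
    unfold Mal
    congr
  rw [h4, hM1] at h3
  omega

omit [Fintype G] in
theorem iter_phi (S : Sit p Q δ D lam n ν) (h0 : ∀ q ∈ Q, δ q = 0) (a g : G) (i : ℕ) :
    (fun x => x + δ x - a)^[i] g = g + i • δ g - (i.choose 2) • δ a - i • a := by
  induction i with
  | zero => simp
  | succ i ih =>
    rw [Function.iterate_succ_apply', ih]
    have e1 : δ (g + i • δ g - (i.choose 2) • δ a - i • a) = δ g - i • δ a := by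
      simp only [map_sub, map_add, map_nsmul]
      rw [h0 _ (S.hδ g), h0 _ (S.hδ a)]
      simp
    rw [e1]
    have e2 : (i + 1).choose 2 = i + i.choose 2 := by
      rw [Nat.choose_succ_succ' i 1, Nat.choose_one_right]
    rw [e2, add_smul i 1, add_smul, add_smul i 1, one_smul, one_smul]
    abel

theorem orbit (S : Sit p Q δ D lam n ν) (h : TwoColours Q δ D) (hp2 : p ≠ 2)
    (h0 : ∀ q ∈ Q, δ q = 0) (hord : ∀ g : G, p • g = 0 → g ∈ Q)
    (hlam : lam = p) (hn : n = p ^ 2) : False := by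
  classical
  obtain ⟨a, ha⟩ := orbit_a S h hp2 hlam hn
  obtain ⟨d, hd, d', hd', hs, hs', hne⟩ := h
  have : Fact p.Prime := ⟨S.hp⟩
  have hpQ : ∀ q ∈ Q, p • q = 0 := by
    intro q hq
    have h1 : Nat.card Q • (⟨q, hq⟩ : Q) = 0 := card_nsmul_eq_zero'
    rw [S.hQ] at h1
    simpa using congrArg Subtype.val h1
  -- the orbit of a single element stays single
  have horb : ∀ x ∈ D, fib Q D x = {x} → ∀ i : ℕ, (fun x => x + δ x - a)^[i] x ∈ D ∧
      fib Q D ((fun x => x + δ x - a)^[i] x) = {(fun x => x + δ x - a)^[i] x} := by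
    intro x hx hsx i
    induction i with
    | zero => exact ⟨hx, hsx⟩
    | succ i ih =>
      rw [Function.iterate_succ_apply']
      exact ha _ ih.1 ih.2
  have hfix : ∀ x ∈ D, fib Q D x = {x} → ∀ N : ℕ, N • a ∈ Q →
      N • δ x = (N.choose 2) • δ a + N • a := by
    intro x hx hsx N hN
    have h1 := (horb x hx hsx N).1
    have h2 := iter_phi S h0 a x N
    rw [h2] at h1
    have h3 : x + N • δ x - (N.choose 2) • δ a - N • a ∈ fib Q D x := by
      rw [b3_mem_fib]
      refine ⟨h1, ?_⟩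
      have e : x + N • δ x - (N.choose 2) • δ a - N • a - x
          = N • δ x - (N.choose 2) • δ a - N • a := by abel
      rw [e]
      exact Q.sub_mem (Q.sub_mem (Q.nsmul_mem (S.hδ x) _) (Q.nsmul_mem (S.hδ a) _)) hN
    rw [hsx, Finset.mem_singleton] at h3
    have h4 : N • δ x - ((N.choose 2) • δ a + N • a)
        = (x + N • δ x - (N.choose 2) • δ a - N • a) - x := by abel
    rw [h3, sub_self] at h4
    exact sub_eq_zero.1 h4
  have hkey : ∀ N : ℕ, N • a ∈ Q → p ∣ N ∧ N • a = 0 := by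
    intro N hN
    have h1 := hfix d hd hs N hN
    have h2 := hfix d' hd' hs' N hN
    have h3 : N • (δ d - δ d') = 0 := by
      rw [nsmul_sub, h1, h2, sub_self]
    have hx0 : δ d - δ d' ≠ 0 := sub_ne_zero.2 hne
    have hord' : addOrderOf (δ d - δ d') = p :=
      addOrderOf_eq_prime (hpQ _ (Q.sub_mem (S.hδ d) (S.hδ d'))) hx0
    have hpN : p ∣ N := by
      rw [← hord']
      exact addOrderOf_dvd_of_nsmul_eq_zero h3
    refine ⟨hpN, ?_⟩
    obtain ⟨m, rfl⟩ := hpN
    have e1 : (p * m) • δ d = 0 := by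
      rw [mul_comm, mul_smul, hpQ _ (S.hδ d), smul_zero]
    have hpc : p ∣ (p * m).choose 2 := by
      rw [Nat.choose_two_right]
      have hodd : Nat.Coprime p 2 := by
        rw [Nat.coprime_primes S.hp Nat.prime_two]
        exact hp2
      have h5 : p ∣ 2 * (p * m * (p * m - 1) / 2) := by
        rw [Nat.mul_div_cancel' (Nat.even_mul_pred_self (p * m)).two_dvd]
        exact ⟨m * (p * m - 1), by ring⟩
      exact hodd.dvd_of_dvd_mul_left h5
    have e2 : ((p * m).choose 2) • δ a = 0 := by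
      obtain ⟨c, hc⟩ := hpc
      rw [hc, mul_comm, mul_smul, hpQ _ (S.hδ a), smul_zero]
    rw [e1, e2, zero_add] at h1
    exact h1.symm
  have hex : ∃ N : ℕ, 0 < N ∧ N • a ∈ Q := by
    refine ⟨Fintype.card G, Fintype.card_pos, ?_⟩
    rw [card_nsmul_eq_zero]
    exact Q.zero_mem
  obtain ⟨hN0, hNQ⟩ := Nat.find_spec hex
  have hmin := fun m (hm : m < Nat.find hex) => Nat.find_min hex hm
  set N := Nat.find hex with hN
  obtain ⟨⟨m, hm⟩, hNa⟩ := hkey N hNQ
  have hm0 : 0 < m := by
    rcases Nat.eq_zero_or_pos m with h' | h'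
    · rw [h', mul_zero] at hm; omega
    · exact h'
  have hmN : m < N := by
    rw [hm]
    have := S.hp.one_lt
    nlinarith
  apply hmin m hmN
  refine ⟨hm0, hord _ ?_⟩
  rw [← mul_smul, ← hm]
  exact hNa

end Pool.Agent.Helper97.Lander
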