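import Pool.Agent.Helper97.Lander.RingDefs
import Pool.Agent.Helper97.Lander.Cyc

/-!
# The ideal of the sum of `Q` consists of the `Q`-periodic elements; consequences
-/

set_option autoImplicit false

namespace Pool.Agent.Helper97.Lander

open AddMonoidAlgebra

variable {G : Type*} [AddCommGroup G] [Fintype G] [DecidableEq G] {p s : ℕ}

private theorem ord_e (hp0 : 0 < p) (x : G) (hx : addOrderOf x = p ^ (s + 1)) :
    addOrderOf (p ^ s • x) = p := by
  rw [addOrderOf_nsmul' x (pow_ne_zero _ hp0.ne'), hx, pow_succ, Nat.gcd_eq_right (dvd_mul_right _ _),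
    Nat.mul_div_cancel_left _ (pow_pos hp0 _)]

omit [DecidableEq G] in
private theorem p_pos (x : G) (hx : addOrderOf x = p ^ (s + 1)) : 0 < p := by
  rcases Nat.eq_zero_or_pos p with h | h
  · exfalso
    have h1 := addOrderOf_pos x
    rw [hx, h, zero_pow (by omega)] at h1
    exact lt_irrefl _ h1
  · exact h

omit [Fintype G] [DecidableEq G] in
private theorem nq_eq (x : G) :
    nq p s x = ∑ i ∈ Finset.range p, single (i • (p ^ s • x)) (1 : ℤ) := by
  unfold nq
  refine Finset.sum_congr rfl fun i _ => ?_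
  rw [← mul_smul, mul_comm]

private theorem shift_nq (x : G) (hx : addOrderOf x = p ^ (s + 1)) :
    single (p ^ s • x) (1 : ℤ) * nq p s x = nq p s x := by
  have hp0 := p_pos x hx
  have he : p • (p ^ s • x) = 0 := by
    have h := addOrderOf_nsmul_eq_zero (p ^ s • x)
    rwa [ord_e hp0 x hx] at h
  rw [nq_eq, Finset.mul_sum]
  have h1 : ∀ i ∈ Finset.range p, single (p ^ s • x) (1 : ℤ) * single (i • (p ^ s • x)) (1 : ℤ) =
      single ((i + 1) • (p ^ s • x)) (1 : ℤ) := by
    intro i _
    rw [single_mul_single, mul_one, add_smul, one_smul, add_comm]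
  rw [Finset.sum_congr rfl h1]
  obtain ⟨q, rfl⟩ : ∃ q, p = q + 1 := ⟨p - 1, by omega⟩
  rw [Finset.sum_range_succ, Finset.sum_range_succ' (fun i => single (i • ((q + 1) ^ s • x)) (1 : ℤ)),
    he, zero_smul]

private theorem mem_shift (x : G) (hx : addOrderOf x = p ^ (s + 1))
    (X : AddMonoidAlgebra ℤ G) (h : X ∈ iq p s x) : single (p ^ s • x) (1 : ℤ) * X = X := by
  unfold iq at h
  rw [Ideal.mem_span_singleton] at h
  obtain ⟨Y, rfl⟩ := h
  rw [← mul_assoc, shift_nq x hx]

/-- Periodic elements lie in the ideal: choose one element in every coset of the subgroup generated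
by `p ^ s • x`. -/
theorem periodic_mem (hp : p.Prime) (x : G) (hx : addOrderOf x = p ^ (s + 1))
    (X : AddMonoidAlgebra ℤ G) (h : ∀ g, X.coeff (g + p ^ s • x) = X.coeff g) : X ∈ iq p s x := by
  have hoe := ord_e hp.pos x hx
  obtain ⟨e, he⟩ : ∃ e, e = p ^ s • x := ⟨_, rfl⟩
  rw [← he] at h hoe
  have hj : ∀ (j : ℕ) (g : G), X.coeff (g + j • e) = X.coeff g := by
    intro j
    induction j with
    | zero => intro g; rw [zero_smul, add_zero]
    | succ j ih => intro g; rw [add_smul, one_smul, ← add_assoc, h, ih]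
  -- representatives
  let rep : G → G := fun g => (QuotientAddGroup.mk g : G ⧸ AddSubgroup.zmultiples e).out
  have hrep : ∀ g, ∃ i : ℕ, i < p ∧ g = rep g + i • e := by
    intro g
    have h1 : (QuotientAddGroup.mk (rep g) : G ⧸ AddSubgroup.zmultiples e) = QuotientAddGroup.mk g :=
      Quotient.out_eq _
    rw [QuotientAddGroup.eq] at h1
    rw [mem_zmultiples_iff_mem_range_addOrderOf, hoe, Finset.mem_image] at h1
    obtain ⟨i, hi, h2⟩ := h1
    refine ⟨i, Finset.mem_range.1 hi, ?_⟩
    rw [h2]
    abel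
  have hrepe : ∀ (g : G) (i : ℕ), rep (g + i • e) = rep g := by
    intro g i
    have h1 : (QuotientAddGroup.mk (g + i • e) : G ⧸ AddSubgroup.zmultiples e) =
        QuotientAddGroup.mk g := by
      rw [QuotientAddGroup.eq]
      refine AddSubgroup.mem_zmultiples_iff.2 ⟨-(i : ℤ), ?_⟩
      rw [neg_smul, natCast_zsmul]
      abel
    show Quotient.out _ = Quotient.out _
    rw [h1]
  let Y : AddMonoidAlgebra ℤ G := ∑ g : G, if rep g = g then single g (X.coeff g) else 0
  have hY : ∀ g, Y.coeff g = if rep g = g then X.coeff g else 0 := by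
    intro g
    show (∑ g : G, if rep g = g then single g (X.coeff g) else 0 : AddMonoidAlgebra ℤ G).coeff g = _
    rw [coeff_sum, Finsupp.finsetSum_apply, Finset.sum_eq_single g]
    · split_ifs with h1
      · rw [coeff_single, Finsupp.single_eq_same]
      · rfl
    · intro b _ hb
      split_ifs with h1
      · rw [coeff_single, Finsupp.single_eq_of_ne' hb]
      · rfl
    · intro h1
      exact absurd (Finset.mem_univ g) h1
  have hX : X = nq p s x * Y := by
    ext g
    rw [nq_eq, ← he, Finset.sum_mul, coeff_sum, Finsupp.finsetSum_apply]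
    have h1 : ∀ i ∈ Finset.range p, (single (i • e) (1 : ℤ) * Y).coeff g =
        if rep (-(i • e) + g) = -(i • e) + g then X.coeff g else 0 := by
      intro i _
      rw [coeff_single_mul_apply, one_mul, hY]
      have h2 : X.coeff (-(i • e) + g) = X.coeff g := by
        have h3 := hj i (-(i • e) + g)
        rw [show -(i • e) + g + i • e = g by abel] at h3
        exact h3.symm
      rw [h2]
    rw [Finset.sum_congr rfl h1]
    obtain ⟨i, hi, hgi⟩ := hrep g
    have hr : ∀ k : ℕ, rep (-(k • e) + g) = rep g := by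
      intro k
      have h3 := hrepe (-(k • e) + g) k
      rw [show -(k • e) + g + k • e = g by abel] at h3
      exact h3.symm
    rw [Finset.sum_eq_single i]
    · rw [if_pos]
      rw [hr]
      conv_rhs => rw [hgi]
      abel
    · intro k hk hki
      rw [if_neg]
      intro h4
      rw [hr] at h4
      apply hki
      have h5 : k • e = i • e := by
        have h6 : k • e + rep g = g := by
          rw [h4]
          abel
        rw [hgi] at h6
        have h7 : rep (rep g + i • e) = rep g := by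
          rw [hrepe]
          have h8 := hrepe (rep g) i
          rw [← hgi] at h8
          exact h8.symm
        rw [h7] at h6
        have h9 : k • e + rep g = i • e + rep g := by rw [h6]; abel
        exact add_right_cancel h9
      have h6 := nsmul_injOn_Iio_addOrderOf (x := e)
      rw [hoe] at h6
      exact h6 (Finset.mem_range.1 hk) hi h5
    · intro h2
      exact absurd (Finset.mem_range.2 hi) h2
  unfold iq
  rw [Ideal.mem_span_singleton]
  exact ⟨Y, hX⟩

theorem mem_periodic (x : G) (hx : addOrderOf x = p ^ (s + 1))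
    (X : AddMonoidAlgebra ℤ G) (h : X ∈ iq p s x) (g : G) : X.coeff (g + p ^ s • x) = X.coeff g := by
  have h1 := mem_shift x hx X h
  have h2 : (single (p ^ s • x) (1 : ℤ) * X).coeff (g + p ^ s • x) = X.coeff g := by
    rw [coeff_single_mul_apply, one_mul]
    congr 1
    abel
  rwa [h1] at h2

/-- The quotient is torsion free. -/
theorem cq_torsion (hp : p.Prime) (x : G) (hx : addOrderOf x = p ^ (s + 1)) (m : ℤ) (hm : m ≠ 0)
    (a : CQ p s x) (h : (m : CQ p s x) * a = 0) : a = 0 := by
  obtain ⟨X, rfl⟩ := Ideal.Quotient.mk_surjective a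
  have h1 : ((m : AddMonoidAlgebra ℤ G) * X) ∈ iq p s x := by
    rw [← Ideal.Quotient.eq_zero_iff_mem, map_mul, map_intCast]
    exact h
  rw [Ideal.Quotient.eq_zero_iff_mem]
  refine periodic_mem hp x hx X fun g => ?_
  have h2 := mem_periodic x hx _ h1 g
  rw [← zsmul_eq_mul, coeff_smul_apply, coeff_smul_apply, smul_eq_mul, smul_eq_mul] at h2
  exact mul_left_cancel₀ hm h2

theorem dvd_congr (x : G) (hx : addOrderOf x = p ^ (s + 1)) (m : ℕ)
    (X : AddMonoidAlgebra ℤ G) (h : (m : CQ p s x) ∣ mkq p s x X) (g : G) (j : ℕ) :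
    X.coeff (g + (j * p ^ s) • x) ≡ X.coeff g [ZMOD m] := by
  obtain ⟨b, hb⟩ := h
  obtain ⟨Y, rfl⟩ := Ideal.Quotient.mk_surjective b
  have h1 : X - (m : AddMonoidAlgebra ℤ G) * Y ∈ iq p s x := by
    rw [← Ideal.Quotient.eq_zero_iff_mem, map_sub, map_mul, map_natCast]
    rw [sub_eq_zero]
    exact hb
  have h2 : ∀ (j : ℕ) (g : G), (X - (m : AddMonoidAlgebra ℤ G) * Y).coeff (g + (j * p ^ s) • x) =
      (X - (m : AddMonoidAlgebra ℤ G) * Y).coeff g := by
    intro j
    induction j with
    | zero => intro g; rw [zero_mul, zero_smul, add_zero]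
    | succ j ih =>
      intro g
      rw [add_mul, one_mul, add_smul, ← add_assoc, mem_periodic x hx _ h1, ih]
  have h3 := h2 j g
  rw [coeff_sub, Finsupp.sub_apply, Finsupp.sub_apply, ← nsmul_eq_mul, coeff_smul_apply,
    coeff_smul_apply, nsmul_eq_mul, nsmul_eq_mul] at h3
  rw [Int.modEq_iff_dvd]
  refine ⟨Y.coeff g - Y.coeff (g + (j * p ^ s) • x), ?_⟩
  linarith

omit [Fintype G] [DecidableEq G] in
private theorem mk_pow (x : G) (k : ℕ) :
    (mkq p s x (single x 1)) ^ k = mkq p s x (single (k • x) 1) := by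
  rw [← map_pow, single_pow, one_pow]

/-- The class of `x` is a root of the cyclotomic polynomial. -/
theorem cq_root (x : G) :
    ∑ i ∈ Finset.range p, (mkq p s x (single x 1)) ^ (p ^ s * i) = 0 := by
  have h1 : ∀ i ∈ Finset.range p, (mkq p s x (single x 1)) ^ (p ^ s * i) =
      mkq p s x (single ((p ^ s * i) • x) 1) := fun i _ => mk_pow x _
  rw [Finset.sum_congr rfl h1, ← map_sum]
  show Ideal.Quotient.mk (iq p s x) (nq p s x) = 0
  rw [Ideal.Quotient.eq_zero_iff_mem]
  exact Ideal.subset_span rfl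

theorem pi_pow_dvd (hp : p.Prime) (x : G) :
    piq p s x ^ ((p - 1) * p ^ s) ∣ (p : CQ p s x) ∧ (p : CQ p s x) ∣ piq p s x ^ ((p - 1) * p ^ s) := by
  have h := cyc_dvd hp s (mkq p s x (single x 1)) (cq_root x)
  have e : piq p s x = mkq p s x (single x 1) - 1 := by
    unfold piq
    rw [map_sub, map_one]
  rw [e]
  exact h

theorem pi_nzd (hp : p.Prime) (x : G) (hx : addOrderOf x = p ^ (s + 1)) (a : CQ p s x)
    (h : piq p s x * a = 0) : a = 0 := by
  obtain ⟨c, hc⟩ := (pi_pow_dvd (s := s) hp x).1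
  obtain ⟨k, hk⟩ : ∃ k, (p - 1) * p ^ s = k + 1 :=
    ⟨(p - 1) * p ^ s - 1, by
      have h1 : 0 < (p - 1) * p ^ s := Nat.mul_pos (by have := hp.two_le; omega) (pow_pos hp.pos s)
      omega⟩
  refine cq_torsion hp x hx (p : ℤ) (by exact_mod_cast hp.ne_zero) a ?_
  rw [Int.cast_natCast, hc, hk, pow_succ]
  calc piq p s x ^ k * piq p s x * c * a = piq p s x ^ k * c * (piq p s x * a) := by ring
    _ = 0 := by rw [h, mul_zero]

end Pool.Agent.Helper97.Lander
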