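import Pool.Agent.Helper97.Lander.RingDefs

/-!
# Frobenius and the automorphism `sigma` on the quotient ring
-/

set_option autoImplicit false

namespace Pool.Agent.Helper97.Lander

open AddMonoidAlgebra

variable {G : Type*} [AddCommGroup G] [Fintype G] [DecidableEq G] {p s w : ℕ}

omit [Fintype G] [DecidableEq G] in
theorem rb_ind0 (x : G) (a : AddMonoidAlgebra ℤ G)
    {P : CQ p s x → Prop} (h0 : P 0) (hadd : ∀ a b, P a → P b → P (a + b))
    (hs : ∀ (g : G) (r : ℤ), P (mkq p s x (single g r))) : P (mkq p s x a) := by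
  induction a using AddMonoidAlgebra.induction_linear with
  | zero =>
    have : mkq p s x (0 : AddMonoidAlgebra ℤ G) = 0 := map_zero _
    exact this ▸ h0
  | add f g hf hg =>
    have : mkq p s x (f + g : AddMonoidAlgebra ℤ G) = mkq p s x f + mkq p s x g := map_add _ _ _
    exact this ▸ hadd _ _ hf hg
  | single g r => exact hs g r

omit [Fintype G] [DecidableEq G] in
theorem rb_ind (x : G) {P : CQ p s x → Prop} (h0 : P 0) (hadd : ∀ a b, P a → P b → P (a + b))
    (hs : ∀ (g : G) (r : ℤ), P (mkq p s x (single g r))) (y : CQ p s x) : P y := by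
  obtain ⟨a, rfl⟩ := Ideal.Quotient.mk_surjective y
  exact rb_ind0 x a h0 hadd hs

omit [Fintype G] [DecidableEq G] in
theorem rb_single_pow (x : G) (n : ℕ) :
    (single (n • x) 1 : AddMonoidAlgebra ℤ G) = single x 1 ^ n := by
  rw [AddMonoidAlgebra.single_pow, one_pow]

omit [Fintype G] [DecidableEq G] in
theorem rb_dvd (x : G) (n : ℕ) : piq p s x ∣ mkq p s x (single (n • x) 1 - 1) := by
  unfold piq
  apply map_dvd
  rw [rb_single_pow]
  exact sub_one_dvd_pow_sub_one _ n

omit [Fintype G] [DecidableEq G] in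
theorem rb_split (g h : G) (r : ℤ) :
    (single (g + h) r - single g r : AddMonoidAlgebra ℤ G) = single g r * (single h 1 - 1) := by
  rw [mul_sub, mul_one, AddMonoidAlgebra.single_mul_single, mul_one]

omit [Fintype G] [DecidableEq G] in
theorem rb_dvd_shift (x g : G) (n : ℕ) (r : ℤ) :
    piq p s x ∣ mkq p s x (single (g + n • x) r) - mkq p s x (single g r) := by
  rw [← map_sub, rb_split, map_mul]
  exact Dvd.dvd.mul_left (rb_dvd x n) _

/-- Modulo `pi` (which divides `p`) every element is fixed by `y ↦ y ^ q`, `q = p ^ phi(w)`: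
`(q - 1) • g` is a multiple of `x`. -/
theorem cq_frob (hp : p.Prime) (x : G) (hw : Nat.Coprime p w) (hG : ∀ g : G, ∃ j : ℕ, w • g = j • x)
    (hpi : piq p s x ∣ (p : CQ p s x)) :
    ∃ q : ℕ, 2 ≤ q ∧ ∀ y : CQ p s x, piq p s x ∣ y ^ q - y := by
  have hw0 : 0 < w := by
    rcases Nat.eq_zero_or_pos w with h | h
    · subst h
      rw [Nat.coprime_zero_right] at hw
      exact absurd hw hp.one_lt.ne'
    · exact h
  have hφ : 0 < Nat.totient w := Nat.totient_pos.mpr hw0
  refine ⟨p ^ Nat.totient w, ?_, ?_⟩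
  · calc 2 ≤ p := hp.two_le
      _ = p ^ 1 := (pow_one p).symm
      _ ≤ p ^ Nat.totient w := Nat.pow_le_pow_right hp.pos hφ
  set q : ℕ := p ^ Nat.totient w with hq
  have hq0 : q ≠ 0 := pow_ne_zero _ hp.pos.ne'
  have hq1 : 1 ≤ q := Nat.one_le_iff_ne_zero.mpr hq0
  have hwq : w ∣ q - 1 := by
    have h1 : q ≡ 1 [MOD w] := Nat.ModEq.pow_totient hw
    exact (Nat.modEq_iff_dvd' hq1).mp h1.symm
  obtain ⟨m, hm⟩ := hwq
  have : Fact p.Prime := ⟨hp⟩
  intro y
  refine rb_ind x (P := fun y => piq p s x ∣ y ^ q - y) ?_ ?_ ?_ y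
  · rw [zero_pow hq0, sub_zero]
    exact dvd_zero _
  · intro a b ha hb
    obtain ⟨r, hr⟩ := exists_add_pow_prime_pow_eq hp a b (Nat.totient w)
    rw [← hq] at hr
    have : (a + b) ^ q - (a + b) = (a ^ q - a) + (b ^ q - b) + (p : CQ p s x) * (a * b * r) := by
      rw [hr]
      ring
    rw [this]
    exact dvd_add (dvd_add ha hb) (Dvd.dvd.mul_right hpi _)
  · intro g r
    have h1 : (mkq p s x (single g r)) ^ q = mkq p s x (single (g + (m * (Classical.choose (hG g))) • x)
        (r ^ q)) := by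
      rw [← map_pow, AddMonoidAlgebra.single_pow]
      congr 2
      have h2 := Classical.choose_spec (hG g)
      rw [mul_smul, ← h2, ← mul_smul, Nat.mul_comm m w, ← hm]
      conv_rhs => rw [← one_smul ℕ g]
      rw [smul_smul, ← add_smul]
      congr 1
      omega
    have h3 : (p : ℤ) ∣ r ^ q - r := by
      rw [← (ZMod.intCast_zmod_eq_zero_iff_dvd _ p)]
      push_cast
      rw [hq, ZMod.pow_card_pow, sub_self]
    obtain ⟨c, hc⟩ := h3
    rw [h1]
    have h4 : mkq p s x (single (g + (m * (Classical.choose (hG g))) • x) (r ^ q)) -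
        mkq p s x (single g r) =
        (mkq p s x (single (g + (m * (Classical.choose (hG g))) • x) (r ^ q)) -
          mkq p s x (single g (r ^ q))) + (p : CQ p s x) * mkq p s x (single g c) := by
      have h5 : (single g (r ^ q) : AddMonoidAlgebra ℤ G) =
          single g r + (p : AddMonoidAlgebra ℤ G) * single g c := by
        have h6 : r ^ q = r + p * c := by linarith
        rw [h6, AddMonoidAlgebra.single_add]
        congr 1
        rw [← nsmul_eq_mul p (single g c : AddMonoidAlgebra ℤ G), AddMonoidAlgebra.smul_single,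
          nsmul_eq_mul]
      have h7 := congrArg (mkq p s x) h5
      rw [map_add, map_mul, map_natCast] at h7
      rw [h7]
      ring
    rw [h4]
    exact dvd_add (rb_dvd_shift x g _ _) (Dvd.dvd.mul_right hpi _)

/-- The automorphism `id + delta` acts on the quotient ring, trivially modulo `pi`. -/
theorem cq_sigma (hp : p.Prime) (x : G) (hx : addOrderOf x = p ^ (s + 1)) (δ : G →+ G)
    (hδ : ∀ g, ∃ j : ℕ, δ g = (j * p ^ s) • x) (hinj : ∀ g, g + δ g = 0 → g = 0) :
    ∃ σ : CQ p s x →+* CQ p s x,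
      (∀ g : G, σ (mkq p s x (single g 1)) = mkq p s x (single (g + δ g) 1)) ∧
        ∀ y, piq p s x ∣ σ y - y := by
  set f : AddMonoidAlgebra ℤ G →+* AddMonoidAlgebra ℤ G :=
    AddMonoidAlgebra.mapDomainRingHom ℤ (AddMonoidHom.id G + δ) with hf
  have hfs : ∀ (g : G) (r : ℤ), f (single g r) = single (g + δ g) r := by
    intro g r
    rw [hf]
    simp
  obtain ⟨j, hj⟩ := hδ x
  set c : ℕ := 1 + j * p ^ s with hc
  have hcx : ∀ n : ℕ, n • x + δ (n • x) = (c * n) • x := by
    intro n
    rw [map_nsmul, hj, smul_smul, ← add_smul]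
    congr 1
    rw [hc]
    ring
  have hper : ∀ n : ℕ, (p ^ s * n) • x = (p ^ s * (n % p)) • x := by
    intro n
    conv_lhs => rw [← Nat.mod_add_div n p]
    rw [mul_add, add_smul, ← mul_assoc (p ^ s), ← pow_succ, mul_comm (p ^ (s + 1)),
      mul_smul (n / p) (p ^ (s + 1)) x, ← hx, addOrderOf_nsmul_eq_zero, smul_zero, add_zero]
  have hne : (p ^ s) • x ≠ 0 := by
    intro h
    have h1 := addOrderOf_dvd_of_nsmul_eq_zero h
    rw [hx, Nat.pow_dvd_pow_iff_le_right hp.one_lt] at h1
    omega
  have hcop : Nat.Coprime c p := by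
    rw [Nat.coprime_comm, Nat.Prime.coprime_iff_not_dvd hp]
    rintro ⟨d, hd⟩
    apply hne
    apply hinj
    rw [hcx, hd, show p * d * p ^ s = d * p ^ (s + 1) by ring, mul_smul, ← hx,
      addOrderOf_nsmul_eq_zero, smul_zero]
  have hnq : f (nq p s x) = nq p s x := by
    unfold nq
    rw [map_sum]
    have h1 : ∀ i ∈ Finset.range p, f (single ((p ^ s * i) • x) 1) =
        single ((p ^ s * ((c * i) % p)) • x) 1 := by
      intro i _
      rw [hfs, hcx, ← hper]
      congr 2
      ring
    rw [Finset.sum_congr rfl h1]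
    have hinjOn : Set.InjOn (fun i => (c * i) % p) (Finset.range p : Set ℕ) := by
      intro a ha b hb hab
      rw [Finset.coe_range, Set.mem_Iio] at ha hb
      have h2 : c * a ≡ c * b [MOD p] := hab
      have h3 : a ≡ b [MOD p] := Nat.ModEq.cancel_left_of_coprime (by
        rw [Nat.gcd_comm]
        exact hcop) h2
      exact Nat.ModEq.eq_of_lt_of_lt h3 ha hb
    have hmaps : ∀ i ∈ Finset.range p, (fun i => (c * i) % p) i ∈ Finset.range p := by
      intro i _
      exact Finset.mem_range.mpr (Nat.mod_lt _ hp.pos)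
    have himg : (Finset.range p).image (fun i => (c * i) % p) = Finset.range p := by
      apply Finset.eq_of_subset_of_card_le
      · intro y hy
        obtain ⟨i, hi, rfl⟩ := Finset.mem_image.mp hy
        exact hmaps i hi
      · rw [Finset.card_image_of_injOn hinjOn]
    conv_rhs => rw [← himg]
    rw [Finset.sum_image hinjOn]
  have hle : iq p s x ≤ (iq p s x).comap f := by
    unfold iq
    rw [Ideal.span_le, Set.singleton_subset_iff]
    show f (nq p s x) ∈ Ideal.span {nq p s x}
    rw [hnq]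
    exact Ideal.mem_span_singleton_self _
  have hmk : ∀ a, Ideal.quotientMap (iq p s x) f hle (mkq p s x a) = mkq p s x (f a) := by
    intro a
    exact Ideal.quotientMap_mk
  refine ⟨Ideal.quotientMap (iq p s x) f hle, ?_, ?_⟩
  · intro g
    rw [hmk, hfs]
  · intro y
    refine rb_ind x (P := fun y => piq p s x ∣ Ideal.quotientMap (iq p s x) f hle y - y) ?_ ?_ ?_ y
    · rw [map_zero, sub_zero]
      exact dvd_zero _
    · intro a b ha hb
      rw [map_add, add_sub_add_comm]
      exact dvd_add ha hb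
    · intro g r
      rw [hmk, hfs]
      obtain ⟨i, hi⟩ := hδ g
      rw [hi]
      exact rb_dvd_shift x g _ r

end Pool.Agent.Helper97.Lander
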