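import Pool.Agent.Helper97.Lander.Alg
import Pool.Agent.Helper97.Lander.RingA
import Pool.Agent.Helper97.Lander.RingB

/-!
# (K1): the counts `cnt` are congruent modulo `p ^ nu` along cosets of `Q`
-/

set_option autoImplicit false

namespace Pool.Agent.Helper97.Lander

open AddMonoidAlgebra in
private theorem coeff_pairs {G : Type*} [AddCommGroup G] [DecidableEq G] {α : Type*}
    (s : Finset α) (f : α → G) (g : G) :
    (∑ a ∈ s, (single (f a) 1 : AddMonoidAlgebra ℤ G)).coeff g =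
      ((s.filter (fun a => f a = g)).card : ℤ) := by
  rw [AddMonoidAlgebra.coeff_sum, Finsupp.finsetSum_apply]
  simp only [AddMonoidAlgebra.coeff_single, Finsupp.single_apply]
  rw [Finset.sum_boole]

open AddMonoidAlgebra in
private theorem mul_pairs {G : Type*} [AddCommGroup G] (D : Finset G) (f : G → G) :
    (∑ d ∈ D, (single (f d) 1 : AddMonoidAlgebra ℤ G)) * ∑ d ∈ D, single (-d) 1 =
      ∑ x ∈ D ×ˢ D, single (f x.1 - x.2) 1 := by
  rw [Finset.sum_mul_sum, Finset.sum_product]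
  refine Finset.sum_congr rfl fun a _ => Finset.sum_congr rfl fun b _ => ?_
  rw [AddMonoidAlgebra.single_mul_single, mul_one, sub_eq_add_neg]

open AddMonoidAlgebra in
private theorem mkq_norm {G : Type*} [AddCommGroup G] [Fintype G] [DecidableEq G] {p s : ℕ}
    (hp : p.Prime) (x : G) (hx : addOrderOf x = p ^ (s + 1)) (D : Finset G) (lam n : ℕ)
    (hrep : Reps D lam) (hk : D.card = n + lam) :
    mkq p s x (∑ d ∈ D, single d 1) * mkq p s x (∑ d ∈ D, single (-d) 1) = (n : CQ p s x) := by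
  have hc : ∀ g, ((∑ d ∈ D, (single d 1 : AddMonoidAlgebra ℤ G)) * (∑ d ∈ D, single (-d) 1) -
      (n : ℤ) • single 0 1).coeff g = (lam : ℤ) := by
    intro g
    have h1 : (∑ d ∈ D, (single d 1 : AddMonoidAlgebra ℤ G)) * (∑ d ∈ D, single (-d) 1) =
        ∑ x ∈ D ×ˢ D, single (x.1 - x.2) 1 := mul_pairs D fun d => d
    rw [h1, AddMonoidAlgebra.coeff_sub, Finsupp.sub_apply, coeff_pairs,
      AddMonoidAlgebra.coeff_smul, Finsupp.smul_apply, AddMonoidAlgebra.coeff_single,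
      Finsupp.single_apply]
    by_cases hg : g = 0
    · subst hg
      have h2 : (D ×ˢ D).filter (fun x : G × G => x.1 - x.2 = 0) = D.diag := by
        ext ⟨a, b⟩
        rw [Finset.mem_filter, Finset.mem_product, Finset.mem_diag, sub_eq_zero]
        constructor
        · rintro ⟨⟨h3, -⟩, h4⟩
          exact ⟨h3, h4⟩
        · rintro ⟨h3, h4⟩
          change a = b at h4
          subst h4
          exact ⟨⟨h3, h3⟩, rfl⟩
      rw [h2, Finset.diag_card, hk, if_pos rfl]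
      push_cast
      rw [smul_eq_mul]
      ring
    · rw [hrep g hg, if_neg fun h => hg h.symm, smul_zero, sub_zero]
  have hmem : (∑ d ∈ D, (single d 1 : AddMonoidAlgebra ℤ G)) * (∑ d ∈ D, single (-d) 1) -
      (n : ℤ) • single 0 1 ∈ iq p s x :=
    periodic_mem hp x hx _ fun g => by rw [hc, hc]
  have h2 : mkq p s x ((∑ d ∈ D, (single d 1 : AddMonoidAlgebra ℤ G)) *
      (∑ d ∈ D, single (-d) 1) - (n : ℤ) • single 0 1) = 0 := Ideal.Quotient.eq_zero_iff_mem.2 hmem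
  rw [map_sub, map_mul, sub_eq_zero] at h2
  rw [h2, map_zsmul]
  have h3 : (single 0 1 : AddMonoidAlgebra ℤ G) = 1 := rfl
  rw [h3, map_one]
  simp

open AddMonoidAlgebra in
/-- (K1). `x` generates the Sylow `p`-subgroup (`addOrderOf x = p ^ (s+1)`, `w • g` is a multiple of
`x` for every `g`, `p` and `w` coprime), `delta` takes values in the subgroup generated by
`p ^ s • x`. -/
theorem K1 {G : Type*} [AddCommGroup G] [Fintype G] [DecidableEq G] {p s w : ℕ} (hp : p.Prime)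
    (x : G) (hx : addOrderOf x = p ^ (s + 1)) (hw : Nat.Coprime p w) (hG : ∀ g : G, ∃ j : ℕ, w • g = j • x)
    (δ : G →+ G) (hδ : ∀ g, ∃ j : ℕ, δ g = (j * p ^ s) • x) (hinj : ∀ g, g + δ g = 0 → g = 0)
    (D : Finset G) (lam n ν : ℕ) (hrep : Reps D lam) (hk : D.card = n + lam) (hn : p ^ ν ∣ n)
    (g : G) (j : ℕ) :
    cnt δ D (g + (j * p ^ s) • x) ≡ cnt δ D g [MOD p ^ ν] := by
  obtain ⟨hd1, hd2⟩ := pi_pow_dvd (s := s) hp x
  have hφ : (p - 1) * p ^ s ≠ 0 := by
    have h1 : 0 < p - 1 := Nat.sub_pos_of_lt hp.one_lt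
    exact (Nat.mul_pos h1 (Nat.pow_pos hp.pos)).ne'
  have hpi : piq p s x ∣ (p : CQ p s x) := (dvd_pow_self _ hφ).trans hd1
  obtain ⟨q, hq, hfrob⟩ := cq_frob hp x hw hG hpi
  obtain ⟨σ, hσ1, hσ2⟩ := cq_sigma hp x hx δ hδ hinj
  have h1 : (p : CQ p s x) ^ ν ∣
      mkq p s x (∑ d ∈ D, single d 1) * mkq p s x (∑ d ∈ D, single (-d) 1) := by
    rw [mkq_norm hp x hx D lam n hrep hk]
    obtain ⟨m, rfl⟩ := hn
    push_cast
    exact dvd_mul_right _ _
  have h2 : piq p s x ^ ((p - 1) * p ^ s * ν) ∣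
      mkq p s x (∑ d ∈ D, single d 1) * mkq p s x (∑ d ∈ D, single (-d) 1) := by
    rw [pow_mul]
    exact (pow_dvd_pow_of_dvd hd1 ν).trans h1
  have h3 := dvd_sigma (piq p s x) (pi_nzd hp x hx) hp hpi hq hfrob σ hσ2 _ _ _ h2
  have h4 : (p : CQ p s x) ^ ν ∣
      σ (mkq p s x (∑ d ∈ D, single d 1)) * mkq p s x (∑ d ∈ D, single (-d) 1) := by
    rw [pow_mul] at h3
    exact (pow_dvd_pow_of_dvd hd2 ν).trans h3
  have h5 : σ (mkq p s x (∑ d ∈ D, single d 1)) * mkq p s x (∑ d ∈ D, single (-d) 1) =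
      mkq p s x (∑ y ∈ D ×ˢ D, single (y.1 + δ y.1 - y.2) 1) := by
    have h6 : σ (mkq p s x (∑ d ∈ D, single d 1)) =
        mkq p s x (∑ d ∈ D, single (d + δ d) 1) := by
      rw [map_sum, map_sum, map_sum]
      exact Finset.sum_congr rfl fun d _ => hσ1 d
    rw [h6, ← map_mul]
    congr 1
    exact mul_pairs D fun d => d + δ d
  rw [h5] at h4
  have h7 : ((p ^ ν : ℕ) : CQ p s x) ∣ mkq p s x (∑ y ∈ D ×ˢ D, single (y.1 + δ y.1 - y.2) 1) := by
    push_cast
    exact h4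
  have h8 := dvd_congr x hx (p ^ ν) _ h7 g j
  rw [coeff_pairs (D ×ˢ D) (fun y : G × G => y.1 + δ y.1 - y.2),
    coeff_pairs (D ×ˢ D) (fun y : G × G => y.1 + δ y.1 - y.2)] at h8
  exact (Int.natCast_modEq_iff).1 h8

end Pool.Agent.Helper97.Lander
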