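import Pool.Agent.Helper97.Lander.CaseA
import Pool.Agent.Helper97.Lander.CaseB3
import Pool.Agent.Helper97.Lander.Orbit
import Pool.Agent.Helper97.Lander.Ring
import Pool.Agent.Helper97.Lander.Model0

/-!
# The situation is contradictory; the model `ZMod (p ^ (s+1)) × H`
-/

set_option autoImplicit false

namespace Pool.Agent.Helper97.Lander

open Finset

variable {G : Type*} [AddCommGroup G] [Fintype G] [DecidableEq G] {p : ℕ} {Q : AddSubgroup G}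
  {δ : G →+ G} {D : Finset G} {lam n ν : ℕ}

theorem sit_false (S : Sit p Q δ D lam n ν) (h2 : p ≠ 2 ∨ p * lam < p ^ ν)
    (hs : ((∀ q ∈ Q, δ q = q) ∧ ¬ p ^ 2 ∣ Fintype.card G) ∨
      ((∀ q ∈ Q, δ q = 0) ∧ (∀ g : G, p • g = 0 → g ∈ Q) ∧ (p * lam < p ^ ν ∨ lam = p))) :
    False := by
  by_cases hT : TwoColours Q δ D
  · by_cases hlt : p * lam < p ^ ν
    · exact two_strict S hT hlt
    · have hp2 : p ≠ 2 := h2.resolve_right hlt
      have heq : p ^ ν = p * lam := le_antisymm (not_lt.1 hlt) S.hle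
      rcases hs with ⟨hid, _⟩ | ⟨h0, hord, hl⟩
      · exact two_s1 S hT hp2 hid
      · have hlp : lam = p := hl.resolve_left hlt
        have hn1 : n ≤ lam ^ 2 := two_s2 S hT hp2
        have hn2 : p ^ ν ≤ n := Nat.le_of_dvd S.hn0 S.hn
        rw [heq, hlp] at hn2
        rw [hlp] at hn1
        have hn3 : n = p ^ 2 := le_antisymm hn1 (by rw [pow_two]; exact hn2)
        exact orbit S hT hp2 h0 hord hlp hn3
  · have hO : OneColour Q δ D := by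
      by_cases hd : ∃ d ∈ D, fib Q D d = {d}
      · obtain ⟨d, hd, hfd⟩ := hd
        refine ⟨δ d, S.hδ d, fun d' hd' hfd' => ?_⟩
        by_contra hne
        exact hT ⟨d', hd', d, hd, hfd', hfd, hne⟩
      · exact ⟨0, Q.zero_mem, fun d hd1 hd2 => absurd ⟨d, hd1, hd2⟩ hd⟩
    rcases hs with ⟨_, hsq⟩ | ⟨h0, _, _⟩
    · exact caseA_one S hO hsq
    · rcases h2 with hp2 | hlt
      · exact caseA_odd S hp2 h0 hO
      · have := (caseA S hO).2.2
        omega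

private theorem mem_Qs_aux {p s : ℕ} {H : Type*} [AddCommGroup H] {g : ZMod (p ^ (s + 1)) × H} :
    g ∈ Qs p s H ↔ ∃ z : ℤ, g = ((z : ZMod (p ^ (s + 1))) * ((p ^ s : ℕ) : ZMod (p ^ (s + 1))), 0) := by
  unfold Qs
  rw [AddSubgroup.mem_zmultiples_iff]
  constructor
  · rintro ⟨z, hz⟩
    refine ⟨z, ?_⟩
    rw [← hz, Prod.smul_mk, smul_zero, zsmul_eq_mul]
  · rintro ⟨z, hz⟩
    refine ⟨z, ?_⟩
    rw [hz, Prod.smul_mk, smul_zero, zsmul_eq_mul]

private theorem mul_pow_mem {p s : ℕ} {H : Type*} [AddCommGroup H] (hp : p ≠ 0)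
    (r : ZMod (p ^ (s + 1))) :
    ((((p ^ s : ℕ) : ZMod (p ^ (s + 1))) * r, 0) : ZMod (p ^ (s + 1)) × H) ∈ Qs p s H := by
  have : NeZero (p ^ (s + 1)) := ⟨pow_ne_zero _ hp⟩
  rw [mem_Qs_aux]
  refine ⟨(r.val : ℤ), ?_⟩
  rw [Int.cast_natCast, ZMod.natCast_zmod_val, mul_comm]

private theorem exists_nat {p s : ℕ} {H : Type*} [AddCommGroup H] (hp : p ≠ 0)
    {g : ZMod (p ^ (s + 1)) × H} (hg : g ∈ Qs p s H) :
    ∃ j : ℕ, g = (j * p ^ s) • ((1 : ZMod (p ^ (s + 1))), (0 : H)) := by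
  have : NeZero (p ^ (s + 1)) := ⟨pow_ne_zero _ hp⟩
  obtain ⟨z, hz⟩ := mem_Qs_aux.1 hg
  refine ⟨(z : ZMod (p ^ (s + 1))).val, ?_⟩
  rw [hz, Prod.smul_mk, smul_zero, nsmul_eq_mul, mul_one, Nat.cast_mul, ZMod.natCast_zmod_val]

private theorem unit_aux {p s : ℕ} (hp : p.Prime) (hs : p ≠ 2 ∨ s ≠ 0) :
    IsUnit (((1 + p ^ s : ℕ) : ZMod (p ^ (s + 1)))) := by
  rw [ZMod.isUnit_iff_coprime]
  apply Nat.Coprime.pow_right
  rw [Nat.coprime_comm, Nat.Prime.coprime_iff_not_dvd hp]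
  intro hd
  rcases Nat.eq_zero_or_pos s with h0 | h0
  · subst h0
    rw [pow_zero] at hd
    have h1 : p ≤ 2 := Nat.le_of_dvd (by norm_num) hd
    have h2 := hp.two_le
    omega
  · have h1 : p ∣ p ^ s := dvd_pow_self p (by omega)
    have h2 : p ∣ 1 := (Nat.dvd_add_left h1).1 hd
    exact hp.one_lt.ne' (Nat.dvd_one.1 h2)

private theorem inj_aux {p s : ℕ} {H : Type*} [AddCommGroup H] (hp : p.Prime)
    (hs : p ≠ 2 ∨ s ≠ 0) (g : ZMod (p ^ (s + 1)) × H) (h : g + dlt p s H g = 0) : g = 0 := by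
  rw [dlt_apply] at h
  have h1 : g.1 + ((p ^ s : ℕ) : ZMod (p ^ (s + 1))) * g.1 = 0 := congrArg Prod.fst h
  have h2 : g.2 + 0 = 0 := congrArg Prod.snd h
  rw [add_zero] at h2
  have h3 : ((1 + p ^ s : ℕ) : ZMod (p ^ (s + 1))) * g.1 = 0 := by
    rw [Nat.cast_add, Nat.cast_one, add_mul, one_mul]
    exact h1
  have h4 : g.1 = 0 := (unit_aux hp hs).mul_right_eq_zero.1 h3
  exact Prod.ext h4 h2

private theorem order_aux {p s : ℕ} (hp : p.Prime) :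
    addOrderOf (((p ^ s : ℕ) : ZMod (p ^ (s + 1)))) = p := by
  rw [ZMod.addOrderOf_coe _ (pow_ne_zero _ hp.ne_zero)]
  have h1 : Nat.gcd (p ^ (s + 1)) (p ^ s) = p ^ s :=
    Nat.gcd_eq_right (pow_dvd_pow p (Nat.le_succ s))
  rw [h1, pow_succ]
  exact Nat.mul_div_cancel_left p (pow_pos hp.pos s)

theorem model_sit {H : Type*} [AddCommGroup H] [Fintype H] [DecidableEq H] {p s : ℕ} (hp : p.Prime)
    (hH : Nat.Coprime p (Fintype.card H)) (hs : p ≠ 2 ∨ s ≠ 0)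
    (D : Finset (ZMod (p ^ (s + 1)) × H)) (lam n ν : ℕ) (hrep : Reps D lam)
    (hk : D.card = n + lam) (hlam : p ∣ lam) (hlam0 : 0 < lam) (hn0 : 0 < n)
    (hle : p * lam ≤ p ^ ν) (hn : p ^ ν ∣ n) :
    Sit p (Qs p s H) (dlt p s H) D lam n ν := by
  have : NeZero (p ^ (s + 1)) := ⟨pow_ne_zero _ hp.ne_zero⟩
  have hδ : ∀ g, dlt p s H g ∈ Qs p s H := fun g => mul_pow_mem hp.ne_zero g.1
  refine ⟨hp, ?_, hδ, ?_, inj_aux hp hs, hrep, hk, hlam, hlam0, hn0, hle, hn, ?_⟩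
  · unfold Qs
    rw [Nat.card_zmultiples, Prod.addOrderOf]
    show Nat.lcm (addOrderOf (((p ^ s : ℕ) : ZMod (p ^ (s + 1))))) (addOrderOf (0 : H)) = p
    rw [order_aux hp, addOrderOf_zero, Nat.lcm_one_right]
  · intro q hq
    obtain ⟨z, hz⟩ := mem_Qs_aux.1 hq
    refine ⟨((z : ZMod (p ^ (s + 1))), 0), ?_⟩
    rw [dlt_apply, hz, mul_comm]
  · intro g q hq
    obtain ⟨j, hj⟩ := exists_nat hp.ne_zero hq
    rw [hj]
    refine K1 hp ((1 : ZMod (p ^ (s + 1))), (0 : H)) ?_ hH ?_ (dlt p s H) ?_ (inj_aux hp hs)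
      D lam n ν hrep hk hn g j
    · rw [Prod.addOrderOf]
      show Nat.lcm (addOrderOf (1 : ZMod (p ^ (s + 1)))) (addOrderOf (0 : H)) = p ^ (s + 1)
      rw [ZMod.addOrderOf_one, addOrderOf_zero, Nat.lcm_one_right]
    · intro g
      refine ⟨Fintype.card H * g.1.val, ?_⟩
      have h1 : Fintype.card H • g.2 = 0 := card_nsmul_eq_zero
      refine Prod.ext ?_ ?_
      · show Fintype.card H • g.1 = (Fintype.card H * g.1.val) • (1 : ZMod (p ^ (s + 1)))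
        rw [nsmul_eq_mul, nsmul_eq_mul, mul_one, Nat.cast_mul, ZMod.natCast_zmod_val]
      · show Fintype.card H • g.2 = (Fintype.card H * g.1.val) • (0 : H)
        rw [smul_zero, h1]
    · intro g
      exact exists_nat hp.ne_zero (hδ g)

theorem model_id {H : Type*} [AddCommGroup H] {p : ℕ} : ∀ q ∈ Qs p 0 H, dlt p 0 H q = q := by
  intro q hq
  obtain ⟨z, hz⟩ := mem_Qs_aux.1 hq
  rw [dlt_apply, hz, pow_zero, Nat.cast_one, one_mul]

theorem model_zero {H : Type*} [AddCommGroup H] {p s : ℕ} (hs : s ≠ 0) :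
    ∀ q ∈ Qs p s H, dlt p s H q = 0 := by
  intro q hq
  obtain ⟨z, hz⟩ := mem_Qs_aux.1 hq
  have h1 : ((p ^ s : ℕ) : ZMod (p ^ (s + 1))) * ((p ^ s : ℕ) : ZMod (p ^ (s + 1))) = 0 := by
    rw [← Nat.cast_mul, ← pow_add, ZMod.natCast_eq_zero_iff]
    exact pow_dvd_pow p (by omega)
  rw [dlt_apply, hz]
  show (((p ^ s : ℕ) : ZMod (p ^ (s + 1))) *
    ((z : ZMod (p ^ (s + 1))) * ((p ^ s : ℕ) : ZMod (p ^ (s + 1)))), (0 : H)) = 0
  rw [mul_left_comm, h1, mul_zero]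
  rfl

theorem model_ord {H : Type*} [AddCommGroup H] [Fintype H] {p s : ℕ} (hp : p.Prime)
    (hH : Nat.Coprime p (Fintype.card H)) :
    ∀ g : ZMod (p ^ (s + 1)) × H, p • g = 0 → g ∈ Qs p s H := by
  intro g hg
  have : NeZero (p ^ (s + 1)) := ⟨pow_ne_zero _ hp.ne_zero⟩
  have h1 : p • g.1 = 0 := congrArg Prod.fst hg
  have h2 : p • g.2 = 0 := congrArg Prod.snd hg
  have h3 : g.2 = 0 := by
    have h4 : addOrderOf g.2 ∣ p := addOrderOf_dvd_of_nsmul_eq_zero h2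
    have h5 : addOrderOf g.2 ∣ Fintype.card H := addOrderOf_dvd_card
    have h6 : addOrderOf g.2 ∣ 1 := by
      have := Nat.dvd_gcd h4 h5
      rwa [hH] at this
    exact AddMonoid.addOrderOf_eq_one_iff.1 (Nat.dvd_one.1 h6)
  have h7 : p ^ s ∣ g.1.val := by
    rw [← ZMod.natCast_zmod_val g.1, nsmul_eq_mul, ← Nat.cast_mul,
      ZMod.natCast_eq_zero_iff] at h1
    have h9 : p * p ^ s ∣ p * g.1.val := by
      have h10 : p ^ (s + 1) = p * p ^ s := by rw [pow_succ, mul_comm]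
      exact h10 ▸ h1
    exact Nat.dvd_of_mul_dvd_mul_left hp.pos h9
  obtain ⟨m, hm⟩ := h7
  have h8 : g = (((p ^ s : ℕ) : ZMod (p ^ (s + 1))) * (m : ZMod (p ^ (s + 1))), 0) := by
    refine Prod.ext ?_ h3
    show g.1 = ((p ^ s : ℕ) : ZMod (p ^ (s + 1))) * (m : ZMod (p ^ (s + 1)))
    rw [← Nat.cast_mul, ← hm, ZMod.natCast_zmod_val]
  rw [h8]
  exact mul_pow_mem hp.ne_zero _

end Pool.Agent.Helper97.Lander
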