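import Pool.Agent.Helper97.Lander.Final
import Pool.Agent.Helper18.Ryser.Group

/-!
# Main theorems: `p ^ nu < p * lambda`, and Lander's conjecture for prime power `lambda`
-/

set_option autoImplicit false

namespace Pool.Agent.Helper97.Lander

open Finset
open Pool.Agent.Helper18.Ryser (tor mem_tor split_equiv)

theorem split_cyclic_p {G : Type*} [AddCommGroup G] [Fintype G] {p : ℕ} (hp : p.Prime)
    (P : AddSubgroup G) (hP : IsAddCyclic P) (hidx : ¬ p ∣ P.index) :
    ∃ (s : ℕ) (H : AddSubgroup G), Nat.Coprime p (Nat.card H) ∧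
      Nonempty (G ≃+ ZMod (p ^ s) × H) := by
  have hne : Fintype.card G ≠ 0 := Fintype.card_ne_zero
  obtain ⟨s, w, hw, hcard⟩ := Nat.exists_eq_pow_mul_and_not_dvd hne p hp.ne_one
  have hpw : Nat.Coprime p w := (Nat.Prime.coprime_iff_not_dvd hp).2 hw
  have hpi : Nat.Coprime p P.index := (Nat.Prime.coprime_iff_not_dvd hp).2 hidx
  have hcop : Nat.Coprime (p ^ s) w := Nat.Coprime.pow_left s hpw
  obtain ⟨e⟩ := split_equiv (p ^ s) w hcop hcard
  have : Fact p.Prime := ⟨hp⟩
  have hHodd : Nat.Coprime p (Nat.card (tor G w)) := by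
    rw [Nat.Prime.coprime_iff_not_dvd hp]
    intro hcon
    obtain ⟨x, hx⟩ := exists_prime_addOrderOf_dvd_card' p hcon
    have h1 : addOrderOf x ∣ w := by
      apply addOrderOf_dvd_of_nsmul_eq_zero
      have := x.2
      rw [mem_tor] at this
      exact Subtype.ext (by simpa using this)
    rw [hx] at h1
    exact hw h1
  have hTP : tor G (p ^ s) ≤ P := by
    intro g hg
    rw [mem_tor] at hg
    have h1 : addOrderOf (QuotientAddGroup.mk g : G ⧸ P) ∣ p ^ s := by
      apply addOrderOf_dvd_of_nsmul_eq_zero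
      rw [← QuotientAddGroup.mk_nsmul, hg]
      rfl
    have h2 : addOrderOf (QuotientAddGroup.mk g : G ⧸ P) ∣ P.index := addOrderOf_dvd_natCard _
    have h3 : Nat.Coprime (p ^ s) P.index := Nat.Coprime.pow_left s hpi
    have h4 : addOrderOf (QuotientAddGroup.mk g : G ⧸ P) = 1 :=
      Nat.eq_one_of_dvd_coprimes h3 h1 h2
    rw [AddMonoid.addOrderOf_eq_one_iff] at h4
    exact (QuotientAddGroup.eq_zero_iff g).1 h4
  have hTc : IsAddCyclic (tor G (p ^ s)) := by
    have : IsAddCyclic P := hP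
    exact isAddCyclic_of_injective (AddSubgroup.inclusion hTP) (AddSubgroup.inclusion_injective hTP)
  have hTcard : Nat.card (tor G (p ^ s)) = p ^ s := by
    have h1 : Nat.card G = Nat.card (tor G (p ^ s)) * Nat.card (tor G w) := by
      rw [← Nat.card_prod]
      exact Nat.card_congr e.toEquiv
    rw [Nat.card_eq_fintype_card, hcard] at h1
    have h2 : p ^ s ∣ Nat.card (tor G (p ^ s)) := by
      have h3 : Nat.Coprime (p ^ s) (Nat.card (tor G w)) :=
        Nat.Coprime.pow_left s hHodd
      exact h3.dvd_of_dvd_mul_right (h1 ▸ Dvd.intro w rfl)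
    have h4 : Nat.card (tor G (p ^ s)) ∣ p ^ s := by
      obtain ⟨g, hg⟩ := hTc.exists_generator
      have h5 : addOrderOf g = Nat.card (tor G (p ^ s)) :=
        addOrderOf_eq_card_of_forall_mem_zmultiples hg
      rw [← h5]
      apply addOrderOf_dvd_of_nsmul_eq_zero
      have := g.2
      rw [mem_tor] at this
      exact Subtype.ext (by simpa using this)
    exact Nat.dvd_antisymm h4 h2
  have e2 : ZMod (p ^ s) ≃+ tor G (p ^ s) := by
    have := zmodAddCyclicAddEquiv hTc
    rwa [hTcard] at this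
  exact ⟨s, tor G w, hHodd, ⟨e.trans (e2.symm.prodCongr (AddEquiv.refl _))⟩⟩

/-- number of pairs of distinct elements -/
lemma card_pairs {G : Type*} [AddCommGroup G] [Fintype G] [DecidableEq G] {D : Finset G} {lam : ℕ}
    (hrep : Reps D lam) : D.card * D.card = D.card + lam * (Fintype.card G - 1) := by
  have h1 : (D ×ˢ D).card = ∑ g : G, ((D ×ˢ D).filter (fun x => x.1 - x.2 = g)).card :=
    Finset.card_eq_sum_card_fiberwise (fun x _ => Finset.mem_univ _)
  rw [Finset.card_product, ← Finset.add_sum_erase _ _ (Finset.mem_univ (0 : G))] at h1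
  rw [h1]
  congr 1
  · have : (D ×ˢ D).filter (fun x => x.1 - x.2 = 0) = D.diag := by
      ext x
      simp only [Finset.mem_filter, Finset.mem_product, Finset.mem_diag, sub_eq_zero]
      constructor
      · rintro ⟨⟨h1, h2⟩, h3⟩
        exact ⟨h1, h3⟩
      · rintro ⟨h1, h2⟩
        exact ⟨⟨h1, h2 ▸ h1⟩, h2⟩
    rw [this, Finset.diag_card]
  · rw [Finset.sum_congr rfl (fun g hg => hrep g (Finset.ne_of_mem_erase hg)), Finset.sum_const,
      Finset.card_erase_of_mem (Finset.mem_univ _), Finset.card_univ, smul_eq_mul, mul_comm]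

theorem params {G : Type*} [AddCommGroup G] [Fintype G] [DecidableEq G] {D : Finset G} {lam : ℕ}
    (h1 : 1 < D.card) (h2 : D.card < Fintype.card G) (hrep : Reps D lam) :
    0 < lam ∧ lam < D.card := by
  have h := card_pairs hrep
  obtain ⟨v, hv⟩ : ∃ v, Fintype.card G = v + 1 := ⟨Fintype.card G - 1, by omega⟩
  rw [hv, Nat.add_sub_cancel] at h
  rw [hv] at h2
  set k := D.card
  constructor
  · rcases Nat.eq_zero_or_pos lam with rfl | h0
    · exfalso
      nlinarith
    · exact h0
  · by_contra hcon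
    push Not at hcon
    have h3 : k * v ≤ lam * v := Nat.mul_le_mul_right v hcon
    have h4 : k * k ≤ k * v := Nat.mul_le_mul_left k (by omega)
    omega

/-- If `|G|` is even (and `G` has a cyclic Sylow 2-subgroup) then `n` is a square. -/
theorem n_square {H : Type*} [AddCommGroup H] [Fintype H] [DecidableEq H] {s : ℕ}
    (D : Finset (ZMod (2 ^ (s + 1)) × H)) {lam n : ℕ} (hrep : Reps D lam) (hk : D.card = n + lam) :
    IsSquare n := by
  classical
  have hp : Nat.Prime 2 := Nat.prime_two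
  set Q := Qs 2 s H with hQ
  set δ := dlt 2 s H with hδd
  have hc : Nat.card Q = 2 := Qs_card hp
  have h1 := col_sq (Q := Q) (δ := δ) hrep hk (dlt_mem hp) (dlt_surj hp)
  set e : ZMod (2 ^ (s + 1)) × H := (((2 ^ s : ℕ) : ZMod (2 ^ (s + 1))), (0 : H)) with he
  have heQ : e ∈ Q := AddSubgroup.mem_zmultiples _
  have he0 : e ≠ 0 := by
    intro h
    have h2 : addOrderOf e = 2 := by
      rw [← Nat.card_zmultiples]; exact hc
    rw [h, addOrderOf_zero] at h2
    omega
  have hee : e + e = 0 := by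
    have h2 : addOrderOf e = 2 := by
      rw [← Nat.card_zmultiples]; exact hc
    have := addOrderOf_nsmul_eq_zero e
    rwa [h2, two_nsmul] at this
  have h2 := col_shift (Q := Q) (δ := δ) hrep (dlt_mem hp) (dlt_surj hp) heQ he0
  have hQf : Qf Q = {0, e} := by
    symm
    apply Finset.eq_of_subset_of_card_le
    · intro x hx
      simp only [Finset.mem_insert, Finset.mem_singleton] at hx
      simp only [Qf, Finset.mem_filter, Finset.mem_univ, true_and]
      rcases hx with rfl | rfl
      · exact Q.zero_mem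
      · exact heQ
    · have h3 : (Qf Q).card = Nat.card Q := by
        rw [Nat.card_eq_fintype_card, Qf, ← Fintype.card_subtype]
      rw [h3, hc, Finset.card_pair he0.symm]
  rw [hQf, Finset.sum_pair he0.symm, hc] at h1 h2
  rw [zero_add, hee] at h2
  set a := col δ D 0
  set b := col δ D e
  -- 2 (a^2 + b^2) = 2 n + lam v, 2 (a b + b a) = lam v
  have h3 : a ^ 2 + b ^ 2 = n + 2 * (a * b) := by nlinarith
  rcases le_total a b with hab | hab
  · obtain ⟨c, hc'⟩ := Nat.exists_eq_add_of_le hab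
    refine ⟨c, ?_⟩
    rw [hc'] at h3
    nlinarith
  · obtain ⟨c, hc'⟩ := Nat.exists_eq_add_of_le hab
    refine ⟨c, ?_⟩
    rw [hc'] at h3
    nlinarith


lemma map_reps {G G' : Type*} [AddCommGroup G] [DecidableEq G] [AddCommGroup G'] [DecidableEq G']
    (e : G ≃+ G') {D : Finset G} {lam : ℕ} (h : Reps D lam) :
    Reps (D.map e.toEquiv.toEmbedding) lam :=
  Pool.Agent.Helper18.Ryser.Reps.map e h

theorem model_bound {H : Type*} [AddCommGroup H] [Fintype H] [DecidableEq H] {p s : ℕ}
    (hp : p.Prime) (hH : Nat.Coprime p (Fintype.card H)) (hs : p ≠ 2 ∨ s ≠ 0)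
    (D : Finset (ZMod (p ^ (s + 1)) × H)) {lam n ν : ℕ} (hrep : Reps D lam)
    (hk : D.card = n + lam) (h1 : 1 < D.card) (h2 : D.card + 1 < p ^ (s + 1) * Fintype.card H)
    (hlam0 : 0 < lam) (hn0 : 0 < n) (hν : 1 ≤ ν) (hn : p ^ ν ∣ n) : p ^ ν < p * lam := by
  have : NeZero p := ⟨hp.ne_zero⟩
  by_contra hcon
  push Not at hcon
  have hcard : Fintype.card (ZMod (p ^ (s + 1)) × H) = p ^ (s + 1) * Fintype.card H := by
    rw [Fintype.card_prod, ZMod.card]
  have hsq := card_sq hrep hk
  rw [hcard] at hsq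
  have hpn : p ∣ n := (dvd_pow_self p (by omega)).trans hn
  have hpv : p ∣ p ^ (s + 1) * Fintype.card H := Dvd.dvd.mul_right (dvd_pow_self p (by omega)) _
  have hpk : p ∣ D.card := by
    apply hp.dvd_of_dvd_pow (n := 2)
    rw [hsq]
    exact Dvd.dvd.add hpn (Dvd.dvd.mul_left hpv _)
  have hlam : p ∣ lam := by
    rw [hk] at hpk
    exact (Nat.dvd_add_right hpn).1 hpk
  have S := model_sit hp hH hs D lam n ν hrep hk hlam hlam0 hn0 hcon hn
  rcases Nat.eq_zero_or_pos s with rfl | hs0
  · refine sit_false S (Or.inl (by tauto)) (Or.inl ⟨model_id, ?_⟩)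
    rw [hcard, zero_add, pow_one, pow_two]
    intro h
    have := Nat.dvd_of_mul_dvd_mul_left hp.pos h
    exact (Nat.Prime.coprime_iff_not_dvd hp).1 hH this
  · have hs' : s ≠ 0 := by omega
    rcases hcon.lt_or_eq with hlt | heq
    · exact sit_false S (Or.inr hlt) (Or.inr ⟨model_zero hs', model_ord hp hH, Or.inl hlt⟩)
    · obtain ⟨μ, rfl⟩ : ∃ μ, ν = μ + 1 := ⟨ν - 1, by omega⟩
      have hlμ : lam = p ^ μ := by
        rw [pow_succ, mul_comm] at heq
        exact Nat.eq_of_mul_eq_mul_right hp.pos heq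
      rcases Nat.lt_or_ge μ 2 with hμ | hμ
      · rcases Nat.eq_zero_or_pos μ with rfl | hμ0
        · rw [hlμ, pow_zero] at hlam
          exact hp.one_lt.ne' (Nat.dvd_one.1 hlam)
        · have hμ1 : μ = 1 := by omega
          subst hμ1
          rw [pow_one] at hlμ
          by_cases hp2 : p = 2
          · subst hp2
            rw [hlμ] at hrep
            have h := Pool.Agent.Helper18.Ryser.abelian (Nat.coprime_two_left.1 hH) (s + 1) D h1 h2
              hrep
            have h3 : D.card - 2 = n := by omega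
            rw [h3] at h
            have h4 : 2 ∣ Nat.gcd (2 ^ (s + 1) * Fintype.card H) n := Nat.dvd_gcd hpv hpn
            rw [h] at h4
            omega
          · exact sit_false S (Or.inl hp2) (Or.inr ⟨model_zero hs', model_ord hp hH, Or.inr hlμ⟩)
      · have hkμ : p ^ μ ∣ D.card := by
          rw [hk, hlμ]
          exact Dvd.dvd.add ((pow_dvd_pow p (Nat.le_succ μ)).trans hn) dvd_rfl
        have h3 : p ^ (μ + 2) ∣ D.card ^ 2 := by
          refine dvd_trans ?_ (pow_dvd_pow_of_dvd hkμ 2)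
          rw [← pow_mul]
          exact pow_dvd_pow p (by omega)
        have h4 : p ^ (μ + 2) ∣ lam * (p ^ (s + 1) * Fintype.card H) := by
          rw [hlμ, ← mul_assoc, ← pow_add]
          exact Dvd.dvd.mul_right (pow_dvd_pow p (by omega)) _
        have h5 : p ^ (μ + 1 + 1) ∣ n := by
          rw [hsq] at h3
          exact (Nat.dvd_add_left h4).1 h3
        have hlt : p * lam < p ^ (μ + 1 + 1) := by
          rw [heq]
          exact Nat.pow_lt_pow_right hp.one_lt (by omega)
        have S' := model_sit hp hH hs D lam n (μ + 1 + 1) hrep hk hlam hlam0 hn0 hlt.le h5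
        exact sit_false S' (Or.inr hlt) (Or.inr ⟨model_zero hs', model_ord hp hH, Or.inl hlt⟩)

/-- **Theorem M.** -/
theorem bound {G : Type*} [AddCommGroup G] [Fintype G] [DecidableEq G] {p : ℕ} (hp : p.Prime)
    (P : AddSubgroup G) (hP : IsAddCyclic P) (hidx : ¬ p ∣ P.index) (hpG : p ∣ Fintype.card G)
    (hp2 : p = 2 → 4 ∣ Fintype.card G) (D : Finset G) (lam : ℕ) (h1 : 1 < D.card)
    (h2 : D.card + 1 < Fintype.card G) (hrep : Reps D lam) {ν : ℕ} (hν : 1 ≤ ν)
    (hn : p ^ ν ∣ D.card - lam) : p ^ ν < p * lam := by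
  classical
  obtain ⟨hlam0, hlamk⟩ := params h1 (by omega) hrep
  obtain ⟨s, H, hH, ⟨e⟩⟩ := split_cyclic_p hp P hP hidx
  rw [Nat.card_eq_fintype_card] at hH
  have : NeZero p := ⟨hp.ne_zero⟩
  have hcard : Fintype.card G = p ^ s * Fintype.card H := by
    rw [Fintype.card_congr e.toEquiv, Fintype.card_prod, ZMod.card]
  obtain ⟨t, rfl⟩ : ∃ t, s = t + 1 := by
    rcases Nat.eq_zero_or_pos s with rfl | hs
    · exfalso
      rw [hcard, pow_zero, one_mul] at hpG
      exact (Nat.Prime.coprime_iff_not_dvd hp).1 hH hpG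
    · exact ⟨s - 1, by omega⟩
  have hs : p ≠ 2 ∨ t ≠ 0 := by
    by_contra hcon
    push Not at hcon
    obtain ⟨rfl, rfl⟩ := hcon
    have h4 := hp2 rfl
    rw [hcard, zero_add, pow_one, show 4 = 2 * 2 from rfl] at h4
    exact (Nat.Prime.coprime_iff_not_dvd hp).1 hH (Nat.dvd_of_mul_dvd_mul_left two_pos h4)
  refine model_bound hp hH hs (D.map e.toEquiv.toEmbedding) (n := D.card - lam) (map_reps e hrep)
    ?_ ?_ ?_ hlam0 ?_ hν hn
  · rw [Finset.card_map]; omega
  · rwa [Finset.card_map]
  · rwa [Finset.card_map, ← hcard]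
  · omega

/-- **Lander's conjecture for prime power `lambda`** (powers of odd primes, `2`, powers of `4`;
for the other powers of `2` only the case `|G| ≡ 2 mod 4` is left open). -/
theorem prime_power {G : Type*} [AddCommGroup G] [Fintype G] [DecidableEq G] {p μ : ℕ}
    (hp : p.Prime) (hμ : 1 ≤ μ) (P : AddSubgroup G) (hP : IsAddCyclic P) (hidx : ¬ p ∣ P.index)
    (hp2 : p = 2 → μ = 1 ∨ Even μ ∨ 4 ∣ Fintype.card G) (D : Finset G) (h1 : 1 < D.card)
    (h2 : D.card + 1 < Fintype.card G) (hrep : Reps D (p ^ μ)) :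
    Nat.gcd (Fintype.card G) (D.card - p ^ μ) = 1 := by
  classical
  obtain ⟨hlam0, hlamk⟩ := params h1 (by omega) hrep
  obtain ⟨n, hn⟩ : ∃ n, D.card = n + p ^ μ := ⟨D.card - p ^ μ, by omega⟩
  have hn' : D.card - p ^ μ = n := by omega
  rw [hn']
  by_contra hne
  obtain ⟨q, hq, hqd⟩ := Nat.exists_prime_and_dvd hne
  have hqv : q ∣ Fintype.card G := hqd.trans (Nat.gcd_dvd_left _ _)
  have hqn : q ∣ n := hqd.trans (Nat.gcd_dvd_right _ _)
  have hsq := card_sq hrep hn
  have hqk : q ∣ D.card := by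
    apply hq.dvd_of_dvd_pow (n := 2)
    rw [hsq]
    exact Dvd.dvd.add hqn (Dvd.dvd.mul_left hqv _)
  have hqp : q = p := by
    have h3 : q ∣ p ^ μ := by
      rw [hn] at hqk
      exact (Nat.dvd_add_right hqn).1 hqk
    exact (Nat.prime_dvd_prime_iff_eq hq hp).1 (hq.dvd_of_dvd_pow h3)
  subst hqp
  -- `q ^ μ ∣ k`
  have hkμ : q ^ μ ∣ D.card := by
    have h3 := card_pairs hrep
    have h4 : D.card * (D.card - 1) = q ^ μ * (Fintype.card G - 1) := by
      rw [Nat.mul_sub, mul_one]; omega
    have h5 : Nat.Coprime (q ^ μ) (D.card - 1) := by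
      apply Nat.Coprime.pow_left
      rw [Nat.Prime.coprime_iff_not_dvd hq]
      intro h6
      have h7 : q ∣ 1 := by
        have := (Nat.dvd_sub hqk h6)
        rwa [show D.card - (D.card - 1) = 1 by omega] at this
      exact hq.one_lt.ne' (Nat.dvd_one.1 h7)
    exact h5.dvd_of_dvd_mul_right (h4 ▸ Dvd.intro _ rfl)
  have hdvd : q ^ (μ + 1) ∣ n := by
    have h3 : q ^ (μ + 1) ∣ D.card ^ 2 := by
      refine dvd_trans ?_ (pow_dvd_pow_of_dvd hkμ 2)
      rw [← pow_mul]
      exact pow_dvd_pow q (by omega)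
    have h4 : q ^ (μ + 1) ∣ q ^ μ * Fintype.card G := by
      rw [pow_succ]
      exact mul_dvd_mul_left _ hqv
    rw [hsq] at h3
    exact (Nat.dvd_add_left h4).1 h3
  by_cases hc : q = 2 → 4 ∣ Fintype.card G
  · have := bound hq P hP hidx hqv hc D (q ^ μ) h1 h2 hrep (ν := μ + 1) (by omega)
      (by rwa [hn'])
    rw [pow_succ, mul_comm] at this
    exact lt_irrefl _ this
  · push Not at hc
    obtain ⟨rfl, h4⟩ := hc
    rcases hp2 rfl with rfl | hev | h5
    · rw [pow_one] at hrep hn hn'
      have hodd : Odd P.index := by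
        rw [← Nat.not_even_iff_odd]
        exact fun h => hidx (even_iff_two_dvd.1 h)
      have h := Pool.Agent.Helper18.Ryser.main P hP hodd D h1 h2 hrep
      rw [hn'] at h
      exact hne h
    · -- `n` is a square with odd 2-adic valuation
      obtain ⟨s, H, hH, ⟨e⟩⟩ := split_cyclic_p hq P hP hidx
      rw [Nat.card_eq_fintype_card] at hH
      have hcard : Fintype.card G = 2 ^ s * Fintype.card H := by
        rw [Fintype.card_congr e.toEquiv, Fintype.card_prod, ZMod.card]
      obtain ⟨t, rfl⟩ : ∃ t, s = t + 1 := by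
        rcases Nat.eq_zero_or_pos s with rfl | hs
        · exfalso
          rw [hcard, pow_zero, one_mul] at hqv
          exact (Nat.Prime.coprime_iff_not_dvd hq).1 hH hqv
        · exact ⟨s - 1, by omega⟩
      have hsqr : IsSquare n := n_square (D.map e.toEquiv.toEmbedding) (map_reps e hrep)
        (by rw [Finset.card_map]; exact hn)
      obtain ⟨w, hw⟩ := hqv
      have hwodd : w % 2 = 1 := by
        by_contra hcon
        apply h4
        rw [hw]
        obtain ⟨u, rfl⟩ : ∃ u, w = 2 * u := ⟨w / 2, by omega⟩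
        exact ⟨u, by ring⟩
      obtain ⟨k, hk⟩ := hkμ
      obtain ⟨j, rfl⟩ : ∃ j, μ = j + j := hev
      obtain ⟨i, rfl⟩ : ∃ i, j = i + 1 := ⟨j - 1, by omega⟩
      -- n = 2^(2i+3) (2^(2i+1) k^2 - w)
      have h5 : n + 2 ^ (2 * i + 3) * w = 2 ^ (2 * i + 3) * (2 * (4 ^ i * k ^ 2)) := by
        have h6 : 2 ^ (i + 1 + (i + 1)) = 4 * 4 ^ i := by
          rw [show i + 1 + (i + 1) = 2 * i + 2 by ring, pow_add, pow_mul]; ring
        have h7 : 2 ^ (2 * i + 3) = 8 * 4 ^ i := by
          rw [pow_add, pow_mul]; ring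
        rw [h6] at hsq hk
        rw [hk, hw] at hsq
        rw [h7]
        have h8 : n + 4 * 4 ^ i * (2 * w) = (4 * 4 ^ i * k) ^ 2 := hsq.symm
        calc n + 8 * 4 ^ i * w = n + 4 * 4 ^ i * (2 * w) := by ring
          _ = (4 * 4 ^ i * k) ^ 2 := h8
          _ = _ := by ring
      have h6 : 2 ^ (2 * i + 3) * w ≤ 2 ^ (2 * i + 3) * (2 * (4 ^ i * k ^ 2)) := by omega
      have h7 : w ≤ 2 * (4 ^ i * k ^ 2) := Nat.le_of_mul_le_mul_left h6 (by positivity)
      obtain ⟨m, hm⟩ := Nat.exists_eq_add_of_le h7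
      have h8 : n = 2 ^ (2 * i + 3) * m := by
        rw [hm, mul_add] at h5; omega
      have hmodd : m % 2 = 1 := by omega
      obtain ⟨c, hc⟩ := hsqr
      have hc0 : c ≠ 0 := by
        rintro rfl
        rw [hc] at h8
        have : m = 0 := by
          have h9 : 2 ^ (2 * i + 3) * m = 0 := by rw [← h8]
          rcases Nat.mul_eq_zero.1 h9 with h | h
          · exact absurd h (by positivity)
          · exact h
        omega
      have h9 : (c * c).factorization 2 = (2 ^ (2 * i + 3) * m).factorization 2 := by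
        rw [← hc, ← h8]
      have hm0 : m ≠ 0 := by omega
      rw [Nat.factorization_mul hc0 hc0, Nat.factorization_mul (by positivity) hm0,
        Nat.Prime.factorization_pow hq] at h9
      have h10 : m.factorization 2 = 0 := Nat.factorization_eq_zero_of_not_dvd (by omega)
      simp only [Finsupp.add_apply, Finsupp.single_eq_same, h10] at h9
      omega
    · exact h4 h5

end Pool.Agent.Helper97.Lander
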