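import Pool.Agent.Helper97.Lander.Defs

/-!
# The quotient of the integral group ring by the sum of the subgroup of order `p`
-/

set_option autoImplicit false

namespace Pool.Agent.Helper97.Lander

open AddMonoidAlgebra

/-- The sum of the elements of the subgroup generated by `p ^ s • x`. -/
noncomputable def nq {G : Type*} [AddCommGroup G] (p s : ℕ) (x : G) : AddMonoidAlgebra ℤ G :=
  ∑ i ∈ Finset.range p, single ((p ^ s * i) • x) 1

/-- The ideal generated by `nq`. -/
noncomputable def iq {G : Type*} [AddCommGroup G] (p s : ℕ) (x : G) : Ideal (AddMonoidAlgebra ℤ G) :=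
  Ideal.span {nq p s x}

/-- The quotient ring. -/
abbrev CQ {G : Type*} [AddCommGroup G] (p s : ℕ) (x : G) : Type _ := AddMonoidAlgebra ℤ G ⧸ iq p s x

/-- The projection. -/
noncomputable def mkq {G : Type*} [AddCommGroup G] (p s : ℕ) (x : G) :
    AddMonoidAlgebra ℤ G →+* CQ p s x := Ideal.Quotient.mk _

/-- The element `[x] - 1`. -/
noncomputable def piq {G : Type*} [AddCommGroup G] (p s : ℕ) (x : G) : CQ p s x :=
  mkq p s x (single x 1 - 1)

end Pool.Agent.Helper97.Lander
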